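-- part A1 of the GC project, proved by helper190
import Pool.Agent.H629.GC.Stm

/-!
# Weighted inequalities of Hoelder and Jensen
-/

set_option autoImplicit false

open MeasureTheory
open scoped ENNReal

namespace Pool.Agent.H629.GC.P.A1

open Pool.Agent.H629.GC

theorem t_A1 : S_A1 := by
  intro Ω _ μ G Y hG hY t ht0 ht1
  rcases eq_or_lt_of_le ht0 with rfl | ht0'
  · simp
  rcases eq_or_lt_of_le ht1 with rfl | ht1'
  · simp
  have h1t : 0 < 1 - t := by linarith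
  have hpq : (1 / (1 - t)).HolderConjugate (1 / t) := by
    rw [Real.holderConjugate_iff]
    refine ⟨?_, ?_⟩
    · rw [lt_div_iff₀ h1t]
      linarith
    · rw [one_div, inv_inv, one_div, inv_inv]
      ring
  have h1 := ENNReal.lintegral_mul_le_Lp_mul_Lq μ hpq (f := fun ω => G ω ^ (1 - t))
    (g := fun ω => (G ω * Y ω) ^ t) (hG.pow_const _) ((hG.mul hY).pow_const _)
  have h2 : ∫⁻ ω, G ω * Y ω ^ t ∂μ =
      ∫⁻ ω, ((fun ω => G ω ^ (1 - t)) * fun ω => (G ω * Y ω) ^ t) ω ∂μ := by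
    refine lintegral_congr fun ω => ?_
    rw [Pi.mul_apply, ENNReal.mul_rpow_of_nonneg _ _ ht0, ← mul_assoc,
      ← ENNReal.rpow_add_of_nonneg _ _ h1t.le ht0, sub_add_cancel, ENNReal.rpow_one]
  rw [h2]
  refine h1.trans (le_of_eq ?_)
  have h3 : ∀ ω, (G ω ^ (1 - t)) ^ (1 / (1 - t)) = G ω := by
    intro ω
    rw [← ENNReal.rpow_mul, mul_one_div_cancel h1t.ne', ENNReal.rpow_one]
  have h4 : ∀ ω, ((G ω * Y ω) ^ t) ^ (1 / t) = G ω * Y ω := by
    intro ω
    rw [← ENNReal.rpow_mul, mul_one_div_cancel ht0'.ne', ENNReal.rpow_one]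
  simp only [h3, h4, one_div_one_div]

theorem t_A1b : S_A1b := by
  intro Ω _ μ G Y hG hY r hr
  have hr0 : 0 < r := by linarith
  have h1 := t_A1 Ω _ μ G (fun ω => Y ω ^ r) hG (hY.pow_const _) (1 / r) (by positivity)
    (by rw [div_le_one hr0]; exact hr)
  have h2 : ∀ ω, (Y ω ^ r) ^ (1 / r) = Y ω := by
    intro ω
    rw [← ENNReal.rpow_mul, mul_one_div_cancel hr0.ne', ENNReal.rpow_one]
  simp only [h2] at h1
  refine (ENNReal.rpow_le_rpow h1 hr0.le).trans (le_of_eq ?_)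
  rw [ENNReal.mul_rpow_of_nonneg _ _ hr0.le, ← ENNReal.rpow_mul, ← ENNReal.rpow_mul,
    one_div_mul_cancel hr0.ne', ENNReal.rpow_one, sub_mul, one_div_mul_cancel hr0.ne', one_mul]

end Pool.Agent.H629.GC.P.A1
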