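-- part A3 of the GC project, proved by helper747
import Pool.Agent.H629.GC.Stm

/-! GC-A3 for helper629: interpolation between the exponents `q < 1 < r`. -/

set_option autoImplicit false

open MeasureTheory
open scoped ENNReal

namespace Pool.Agent.H629.GC.P.A3

open Pool.Agent.H629.GC

theorem t_A3 : S_A3 := by
  intro Ω _ μ G Y hG hY q r hq0 hq1 hr
  have hrq : 0 < r - q := by linarith
  have h1 : 0 ≤ (r - 1) / (r - q) := div_nonneg (by linarith) hrq.le
  have h2 : 0 ≤ (1 - q) / (r - q) := div_nonneg (by linarith) hrq.le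
  have h3 : (r - 1) / (r - q) + (1 - q) / (r - q) = 1 := by
    rw [← add_div, div_eq_one_iff_eq hrq.ne']
    ring
  have h4 : q * ((r - 1) / (r - q)) + r * ((1 - q) / (r - q)) = 1 := by
    rw [← mul_div_assoc, ← mul_div_assoc, ← add_div, div_eq_one_iff_eq hrq.ne']
    ring
  have key : ∀ ω, G ω * Y ω = (G ω * Y ω ^ q) ^ ((r - 1) / (r - q)) *
      (G ω * Y ω ^ r) ^ ((1 - q) / (r - q)) := by
    intro ω
    rw [ENNReal.mul_rpow_of_nonneg _ _ h1, ENNReal.mul_rpow_of_nonneg _ _ h2, ← ENNReal.rpow_mul,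
      ← ENNReal.rpow_mul, mul_mul_mul_comm, ← ENNReal.rpow_add_of_nonneg _ _ h1 h2, h3,
      ← ENNReal.rpow_add_of_nonneg _ _ (mul_nonneg hq0.le h1) (mul_nonneg (by linarith) h2), h4,
      ENNReal.rpow_one, ENNReal.rpow_one]
  rw [lintegral_congr key]
  exact ENNReal.lintegral_mul_norm_pow_le (hG.mul (hY.pow_const q)) (hG.mul (hY.pow_const r)) h1 h2 h3

end Pool.Agent.H629.GC.P.A3
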