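-- part B2a of the GC project, proved by helper402
import Pool.Agent.H629.GC.Stm

/-!
# Project GC (helper629), task B2a: covariance facts (helper402)
-/

set_option autoImplicit false

namespace Pool.Agent.H629.GC.P.B2a

open MeasureTheory ProbabilityTheory Set Filter
open scoped ENNReal Topology
open Pool.Agent.H629.GC

theorem sq_le_exp (x : ℝ) : x ^ 2 ≤ 2 * (Real.exp x + Real.exp (-x)) := by
  have h1 := Real.exp_pos x
  have h2 := Real.exp_pos (-x)
  rcases le_total 0 x with hx | hx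
  · have h3 := Real.quadratic_le_exp_of_nonneg hx
    nlinarith
  · have h3 := Real.quadratic_le_exp_of_nonneg (neg_nonneg.2 hx)
    nlinarith

section

variable {Ω T : Type} [MeasurableSpace Ω] [MetricSpace T] {P : Measure Ω}
  {X : ℕ → T → Ω → ℝ} {o : T} {δ ε C₀ : ℝ}

theorem K_succ (n : ℕ) (x y : T) :
    K P X 0 (n + 1) x y = K P X 0 n x y + ∫ ω, X n x ω * X n y ω ∂P := by
  unfold K
  rw [Finset.sum_Ico_succ_top (Nat.zero_le n)]

theorem K_sub {m n : ℕ} (hmn : m ≤ n) (x y : T) :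
    K P X m n x y = K P X 0 n x y - K P X 0 m x y := by
  unfold K
  rw [← Finset.sum_Ico_consecutive _ (Nat.zero_le m) hmn]
  ring

theorem K_mono : Monotone (fun n => K P X 0 n o o) := by
  apply monotone_nat_of_le_succ
  intro n
  show K P X 0 n o o ≤ K P X 0 (n + 1) o o
  rw [K_succ]
  have h : 0 ≤ ∫ ω, X n o ω * X n o ω ∂P := integral_nonneg fun ω => mul_self_nonneg _
  linarith

theorem K_step (h : Hyp P X o δ ε C₀) :
    ∃ D : ℝ, ∀ k, K P X 0 (k + 1) o o ≤ K P X 0 k o o + D := by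
  obtain ⟨C₁, h1⟩ := h.expm 1
  obtain ⟨C₂, h2⟩ := h.expm (-1)
  refine ⟨2 * (C₁ + C₂), fun k => ?_⟩
  rw [K_succ]
  obtain ⟨i1, b1⟩ := h1 k o
  obtain ⟨i2, b2⟩ := h2 k o
  have h3 : ∫ ω, X k o ω * X k o ω ∂P ≤
      ∫ ω, 2 * (Real.exp (1 * X k o ω) + Real.exp (-1 * X k o ω)) ∂P := by
    apply integral_mono_of_nonneg
    · exact Eventually.of_forall fun ω => mul_self_nonneg _
    · exact (i1.add i2).const_mul 2
    · refine Eventually.of_forall fun ω => ?_
      have h4 := sq_le_exp (X k o ω)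
      show X k o ω * X k o ω ≤ 2 * (Real.exp (1 * X k o ω) + Real.exp (-1 * X k o ω))
      rw [one_mul, neg_one_mul]
      linarith [pow_two (X k o ω)]
  rw [integral_const_mul, integral_add i1 i2] at h3
  linarith

theorem K_far (h : Hyp P X o δ ε C₀) (c : ℝ) (hc : 0 < c) :
    ∃ C : ℝ, ∀ (m n : ℕ) (x y : T), m ≤ n → dist x y ≤ δ →
    c * Real.exp (-(K P X 0 m o o)) ≤ dist x y → |K P X m n x y| ≤ C := by
  refine ⟨2 * C₀ + |Real.log c|, ?_⟩
  intro m n x y hmn hd hf
  have hs : K P X 0 m o o ≤ K P X 0 n o o := K_mono hmn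
  have h1 := h.cov n x y hd
  have h2 := h.cov m x y hd
  rw [K_sub hmn]
  obtain ⟨sm, hsm⟩ : ∃ sm, sm = K P X 0 m o o := ⟨_, rfl⟩
  obtain ⟨sn, hsn⟩ : ∃ sn, sn = K P X 0 n o o := ⟨_, rfl⟩
  obtain ⟨r, hr⟩ : ∃ r, r = dist x y := ⟨_, rfl⟩
  rw [← hsm] at hs h2 hf
  rw [← hsn] at hs h1
  rw [← hr] at h1 h2 hf
  have hr0 : 0 < r := lt_of_lt_of_le (mul_pos hc (Real.exp_pos _)) hf
  have hell : ∀ t, ell r t = min (Real.log (1 / r)) t := by
    intro t
    unfold ell
    rw [if_neg hr0.ne']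
  rw [hell] at h1 h2
  have h3 : Real.log (1 / r) ≤ sm - Real.log c := by
    have h4 := Real.log_le_log (mul_pos hc (Real.exp_pos _)) hf
    rw [Real.log_mul hc.ne' (Real.exp_pos _).ne', Real.log_exp] at h4
    rw [one_div, Real.log_inv]
    linarith
  have h4 := neg_abs_le (Real.log c)
  have h5 := abs_nonneg (Real.log c)
  have h6 : |min (Real.log (1 / r)) sn - min (Real.log (1 / r)) sm| ≤ |Real.log c| := by
    rw [abs_le]
    constructor
    · have h7 := min_le_min_left (Real.log (1 / r)) hs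
      linarith
    · rcases le_total (Real.log (1 / r)) sm with h8 | h8
      · rw [min_eq_left h8]
        have h9 := min_le_left (Real.log (1 / r)) sn
        linarith
      · rw [min_eq_right h8]
        have h9 := min_le_left (Real.log (1 / r)) sn
        linarith
  rw [abs_le] at h1 h2 h6 ⊢
  constructor <;> linarith [h1.1, h1.2, h2.1, h2.2, h6.1, h6.2]

theorem K_close (h : Hyp P X o δ ε C₀) (R : ℝ) :
    ∃ C : ℝ, ∀ (m n : ℕ) (x y : T), m ≤ n → dist x y ≤ δ →
    dist x y ≤ R * Real.exp (-(K P X 0 n o o)) →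
    |K P X m n x y - (K P X 0 n o o - K P X 0 m o o)| ≤ C := by
  refine ⟨2 * C₀ + |Real.log R|, ?_⟩
  intro m n x y hmn hd hf
  have hs : K P X 0 m o o ≤ K P X 0 n o o := K_mono hmn
  have h1 := h.cov n x y hd
  have h2 := h.cov m x y hd
  rw [K_sub hmn]
  obtain ⟨sm, hsm⟩ : ∃ sm, sm = K P X 0 m o o := ⟨_, rfl⟩
  obtain ⟨sn, hsn⟩ : ∃ sn, sn = K P X 0 n o o := ⟨_, rfl⟩
  obtain ⟨r, hr⟩ : ∃ r, r = dist x y := ⟨_, rfl⟩
  have hr0 : 0 ≤ r := by rw [hr]; exact dist_nonneg
  rw [← hsm] at hs h2 ⊢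
  rw [← hsn] at hs h1 hf ⊢
  rw [← hr] at h1 h2 hf
  have h5 := abs_nonneg (Real.log R)
  rcases hr0.eq_or_lt with hr1 | hr1
  · rw [← hr1] at h1 h2
    unfold ell at h1 h2
    rw [if_pos rfl] at h1 h2
    rw [abs_le] at h1 h2 ⊢
    constructor <;> linarith [h1.1, h1.2, h2.1, h2.2]
  · have hell : ∀ t, ell r t = min (Real.log (1 / r)) t := by
      intro t
      unfold ell
      rw [if_neg hr1.ne']
    rw [hell] at h1 h2
    have hR : 0 < R := by
      by_contra hR
      have h6 : R * Real.exp (-sn) ≤ 0 :=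
        mul_nonpos_of_nonpos_of_nonneg (not_lt.1 hR) (Real.exp_pos _).le
      linarith
    have h3 : sn - Real.log R ≤ Real.log (1 / r) := by
      have h4 := Real.log_le_log hr1 hf
      rw [Real.log_mul hR.ne' (Real.exp_pos _).ne', Real.log_exp] at h4
      rw [one_div, Real.log_inv]
      linarith
    have h4 := le_abs_self (Real.log R)
    have h6 : ∀ t, t ≤ sn → t - |Real.log R| ≤ min (Real.log (1 / r)) t := by
      intro t ht
      exact le_min (by linarith) (by linarith)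
    have h7 := h6 sm hs
    have h8 := h6 sn le_rfl
    have h9 := min_le_right (Real.log (1 / r)) sm
    have h10 := min_le_right (Real.log (1 / r)) sn
    rw [abs_le] at h1 h2 ⊢
    constructor <;> linarith [h1.1, h1.2, h2.1, h2.2]

end

/-- **Task B2a.** -/
theorem t_B2a : S_B2a := by
  intro Ω T _ _ P X o δ ε C₀ h
  refine ⟨K_mono, ?_, K_step h, fun c hc => K_far h c hc, fun R => K_close h R⟩
  unfold K
  rw [Finset.Ico_self, Finset.sum_empty]

end Pool.Agent.H629.GC.P.B2a
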