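-- part B2b of the GC project, proved by helper100
import Pool.Agent.H629.GC.Stm

/-!
GC-B2b: the exponential moments of the sums of the fields at several points.
-/

set_option autoImplicit false

open MeasureTheory ProbabilityTheory Set Filter
open scoped ENNReal Topology

namespace Pool.Agent.H629.GC.P.B2b

open Pool.Agent.H629.GC

lemma list_comm {α : Type} (L : List α) (s : Finset ℕ) (g : α → ℕ → ℝ) :
    ∑ j ∈ s, (L.map fun a => g a j).sum = (L.map fun a => ∑ j ∈ s, g a j).sum := by
  induction L with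
  | nil => simp
  | cons a L ih =>
    simp only [List.map_cons, List.sum_cons]
    rw [Finset.sum_add_distrib, ih]

lemma list_integral {Ω α : Type} [MeasurableSpace Ω] {P : Measure Ω} (L : List α) (f : α → Ω → ℝ)
    (h : ∀ a ∈ L, Integrable (f a) P) :
    Integrable (fun ω => (L.map fun a => f a ω).sum) P ∧
      ∫ ω, (L.map fun a => f a ω).sum ∂P = (L.map fun a => ∫ ω, f a ω ∂P).sum := by
  induction L with
  | nil => simp
  | cons a L ih =>
    obtain ⟨h1, h2⟩ := ih (fun b hb => h b (List.mem_cons_of_mem _ hb))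
    have h3 := h a List.mem_cons_self
    simp only [List.map_cons, List.sum_cons]
    refine ⟨h3.add h1, ?_⟩
    rw [integral_add h3 h1, h2]

lemma sq_expand {α : Type} (L : List (ℝ × α)) (F : α → ℝ) :
    ((L.map fun a => a.1 * F a.2).sum) ^ 2 =
      (L.map fun a => (L.map fun b => a.1 * b.1 * (F a.2 * F b.2)).sum).sum := by
  rw [sq, ← List.sum_map_mul_right]
  congr 1
  apply List.map_congr_left
  intro a _
  rw [← List.sum_map_mul_left]
  congr 1
  apply List.map_congr_left
  intro b _
  ring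

lemma list_measurable {Ω α : Type} [MeasurableSpace Ω] (L : List α) (f : α → Ω → ℝ)
    (h : ∀ a ∈ L, Measurable (f a)) : Measurable (fun ω => (L.map fun a => f a ω).sum) := by
  induction L with
  | nil => simp
  | cons a L ih =>
    simp only [List.map_cons, List.sum_cons]
    exact (h a List.mem_cons_self).add (ih (fun b hb => h b (List.mem_cons_of_mem _ hb)))

lemma list_sum_le' {α : Type} (L : List α) (g : α → ℝ) (C : ℝ) (h : ∀ a ∈ L, g a ≤ C) :
    (L.map g).sum ≤ L.length * C := by
  induction L with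
  | nil => simp
  | cons a L ih =>
    have h1 := ih (fun b hb => h b (List.mem_cons_of_mem _ hb))
    have h2 := h a List.mem_cons_self
    simp only [List.map_cons, List.sum_cons, List.length_cons]
    push_cast
    linarith

lemma list_sum_nonneg {α : Type} (L : List α) (g : α → ℝ) (h : ∀ a ∈ L, 0 ≤ g a) :
    0 ≤ (L.map g).sum := by
  induction L with
  | nil => simp
  | cons a L ih =>
    have h1 := ih (fun b hb => h b (List.mem_cons_of_mem _ hb))
    have h2 := h a List.mem_cons_self
    simp only [List.map_cons, List.sum_cons]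
    linarith

section

variable {Ω T : Type} [MeasurableSpace Ω] [MetricSpace T] {P : Measure Ω}
  {X : ℕ → T → Ω → ℝ} {o : T} {δ ε C₀ : ℝ}

lemma prod_int (h : Hyp P X o δ ε C₀) (j : ℕ) (x y : T) :
    Integrable (fun ω => X j x ω * X j y ω) P := by
  have hL2 : ∀ z, MemLp (X j z) 2 P := by
    intro z
    rw [memLp_two_iff_integrable_sq (h.meas j z).aestronglyMeasurable]
    obtain ⟨C1, hC1⟩ := h.expm 1
    obtain ⟨C2, hC2⟩ := h.expm (-1)
    exact integrable_pow_of_integrable_exp_mul one_ne_zero (hC1 j z).1 (hC2 j z).1 2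
  exact (hL2 x).integrable_mul (hL2 y)

/-- the variable of the `j`-th field -/
def Y (X : ℕ → T → Ω → ℝ) (L : List (ℝ × T)) (j : ℕ) (ω : Ω) : ℝ :=
  (L.map fun a => a.1 * X j a.2 ω).sum

omit [MeasurableSpace Ω] [MetricSpace T] in
lemma ev_eq (X : ℕ → T → Ω → ℝ) (L : List (ℝ × T)) (m n : ℕ) (ω : Ω) :
    ev X L m n ω = ∑ j ∈ Finset.Ico m n, Y X L j ω := by
  unfold ev Y S
  rw [list_comm]
  congr 1
  apply List.map_congr_left
  intro a _
  rw [Finset.mul_sum]

lemma QQ_eq (h : Hyp P X o δ ε C₀) (L : List (ℝ × T)) (m n : ℕ) :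
    QQ P X L m n = ∑ j ∈ Finset.Ico m n, ∫ ω, (Y X L j ω) ^ 2 ∂P := by
  have h1 : ∀ j, ∫ ω, (Y X L j ω) ^ 2 ∂P =
      (L.map fun a => (L.map fun b => a.1 * b.1 * ∫ ω, X j a.2 ω * X j b.2 ω ∂P).sum).sum := by
    intro j
    have e : ∀ ω, (Y X L j ω) ^ 2 =
        (L.map fun a => (L.map fun b => a.1 * b.1 * (X j a.2 ω * X j b.2 ω)).sum).sum :=
      fun ω => sq_expand L (fun x => X j x ω)
    simp only [e]
    have hin : ∀ a : ℝ × T,
        Integrable (fun ω => (L.map fun b => a.1 * b.1 * (X j a.2 ω * X j b.2 ω)).sum) P ∧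
        ∫ ω, (L.map fun b => a.1 * b.1 * (X j a.2 ω * X j b.2 ω)).sum ∂P =
          (L.map fun b => a.1 * b.1 * ∫ ω, X j a.2 ω * X j b.2 ω ∂P).sum := by
      intro a
      obtain ⟨g1, g2⟩ := list_integral (P := P) L
        (fun b ω => a.1 * b.1 * (X j a.2 ω * X j b.2 ω))
        (fun b _ => (prod_int h j a.2 b.2).const_mul _)
      refine ⟨g1, g2.trans ?_⟩
      congr 1
      apply List.map_congr_left
      intro b _
      exact integral_const_mul _ _
    obtain ⟨-, g2⟩ := list_integral (P := P) L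
      (fun a ω => (L.map fun b => a.1 * b.1 * (X j a.2 ω * X j b.2 ω)).sum)
      (fun a _ => (hin a).1)
    refine g2.trans ?_
    congr 1
    apply List.map_congr_left
    intro a _
    exact (hin a).2
  simp only [h1]
  rw [list_comm]
  unfold QQ K
  congr 1
  apply List.map_congr_left
  intro a _
  rw [list_comm]
  congr 1
  apply List.map_congr_left
  intro b _
  rw [Finset.mul_sum]

lemma Y_indep (h : Hyp P X o δ ε C₀) (L : List (ℝ × T)) : iIndepFun (fun j => Y X L j) P := by
  have h1 := h.indep.comp (fun _ (f : T → ℝ) => (L.map fun a => a.1 * f a.2).sum)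
    (fun _ => list_measurable L (fun a (f : T → ℝ) => a.1 * f a.2)
      (fun a _ => by fun_prop))
  exact h1

lemma Y_meas (h : Hyp P X o δ ε C₀) (L : List (ℝ × T)) (j : ℕ) : Measurable (Y X L j) :=
  list_measurable L (fun a ω => a.1 * X j a.2 ω) (fun a _ => (h.meas j a.2).const_mul a.1)

end

theorem t_B2b : S_B1 → S_B2b := by
  intro hB1 Ω T _ _ P X o δ ε C₀ h N Λ
  have hprob := h.prob
  choose b hb using h.expm
  obtain ⟨C1, hC1⟩ := hB1 ε b N Λ h.εpos
  refine ⟨|C1| * (N * |C₀|), fun L m n hA hmn => ?_⟩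
  -- the estimate for one field
  have hone : ∀ j, Integrable (fun ω => Real.exp (Y X L j ω)) P ∧
      |Real.log (∫ ω, Real.exp (Y X L j ω) ∂P) - (∫ ω, (Y X L j ω) ^ 2 ∂P) / 2| ≤
        |C1| * (L.map fun a => (∫ ω, |X j a.2 ω| ^ (3 + ε) ∂P) ^ (3 / (3 + ε))).sum := by
    intro j
    have h1 := hC1 Ω _ P hprob (L.map fun a => (a.1, X j a.2)) (by
      rw [List.length_map]
      exact hA.len) (by
      intro c hc
      obtain ⟨a, ha, rfl⟩ := List.mem_map.1 hc
      exact ⟨hA.wt a ha, h.meas j a.2, h.centred j a.2, fun t => hb t j a.2⟩)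
    simp only [List.map_map, Function.comp_def] at h1
    refine ⟨h1.1, h1.2.2.trans ?_⟩
    refine mul_le_mul_of_nonneg_right (le_abs_self C1) ?_
    refine list_sum_nonneg L _ fun a _ => ?_
    exact Real.rpow_nonneg (integral_nonneg fun ω => Real.rpow_nonneg (abs_nonneg _) _) _
  -- the logarithm of `Ph`
  have hPh : Ph P X L m n =
      ex (∑ j ∈ Finset.Ico m n, Real.log (∫ ω, Real.exp (Y X L j ω) ∂P)) := by
    have hint : Integrable (fun ω => Real.exp (∑ j ∈ Finset.Ico m n, Y X L j ω)) P := by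
      have h1 := (Y_indep h L).integrable_exp_mul_sum (t := 1) (fun j => Y_meas h L j)
        (s := Finset.Ico m n) (fun j _ => by
          simp only [one_mul]
          exact (hone j).1)
      simp only [one_mul, Finset.sum_apply] at h1
      exact h1
    have hmgf : ∫ ω, Real.exp (∑ j ∈ Finset.Ico m n, Y X L j ω) ∂P =
        ∏ j ∈ Finset.Ico m n, ∫ ω, Real.exp (Y X L j ω) ∂P := by
      have h1 := (Y_indep h L).mgf_sum (t := 1) (fun j => Y_meas h L j) (Finset.Ico m n)
      unfold mgf at h1
      simp only [one_mul, Finset.sum_apply] at h1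
      exact h1
    unfold Ph W
    simp only [ev_eq]
    rw [← ofReal_integral_eq_lintegral_ofReal hint
      (Eventually.of_forall fun ω => (Real.exp_pos _).le), hmgf]
    unfold ex
    congr 1
    rw [Real.exp_sum]
    refine Finset.prod_congr rfl fun j _ => ?_
    rw [Real.exp_log]
    exact integral_exp_pos (hone j).1
  -- the total error
  have herr : |∑ j ∈ Finset.Ico m n, Real.log (∫ ω, Real.exp (Y X L j ω) ∂P) -
      QQ P X L m n / 2| ≤ |C1| * (N * |C₀|) := by
    rw [QQ_eq h, Finset.sum_div, ← Finset.sum_sub_distrib]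
    refine (Finset.abs_sum_le_sum_abs _ _).trans ?_
    refine (Finset.sum_le_sum fun j _ => (hone j).2).trans ?_
    rw [← Finset.mul_sum, list_comm]
    refine mul_le_mul_of_nonneg_left ?_ (abs_nonneg _)
    refine (list_sum_le' L _ |C₀| ?_).trans ?_
    · intro a _
      refine le_trans ?_ ((h.mom a.2 n).trans (le_abs_self _))
      refine Finset.sum_le_sum_of_subset_of_nonneg ?_ fun j _ _ => ?_
      · intro j hj
        exact Finset.mem_range.2 (Finset.mem_Ico.1 hj).2
      · exact Real.rpow_nonneg (integral_nonneg fun ω => Real.rpow_nonneg (abs_nonneg _) _) _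
    · refine mul_le_mul_of_nonneg_right ?_ (abs_nonneg _)
      exact_mod_cast hA.len
  obtain ⟨e1, e2⟩ := abs_le.1 herr
  rw [hPh]
  unfold ex
  constructor
  · refine ENNReal.ofReal_le_ofReal (Real.exp_le_exp.2 ?_)
    linarith
  · refine ENNReal.ofReal_le_ofReal (Real.exp_le_exp.2 ?_)
    linarith

end Pool.Agent.H629.GC.P.B2b
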