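-- part C1 of the GC project, proved by helper251
import Pool.Agent.H629.GC.Stm

set_option autoImplicit false

open MeasureTheory ProbabilityTheory Set Filter
open scoped ENNReal Topology

namespace Pool.Agent.H629.GC.P.C1

open Pool.Agent.H629.GC

/-- C1: independence of the two blocks. -/
theorem t_C1 : S_C1 := by
  intro Ω T _ _ P X hB m k n U V hU hV
  have hind : iIndep (fun j : ℕ => MeasurableSpace.comap (fun (ω : Ω) (x : T) => X j x ω)
      MeasurableSpace.pi) P := hB.indep.iIndep
  have hle : ∀ j : ℕ, MeasurableSpace.comap (fun (ω : Ω) (x : T) => X j x ω)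
      MeasurableSpace.pi ≤ (inferInstance : MeasurableSpace Ω) :=
    fun j => Measurable.comap_le (measurable_pi_lambda _ fun x => hB.meas j x)
  have hdis : Disjoint (Set.Ico m k) (Set.Ico k n) := by
    rw [Set.disjoint_left]
    intro a ha hb
    exact absurd ha.2 (not_lt.2 hb.1)
  have h := indep_iSup_of_disjoint hle hind hdis
  exact lintegral_mul_eq_lintegral_mul_lintegral_of_independent_measurableSpace
    (iSup₂_le fun j _ => hle j) (iSup₂_le fun j _ => hle j) h hU hV

end Pool.Agent.H629.GC.P.C1
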