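-- part C2 of the GC project, proved by helper155
import Pool.Agent.H629.GC.Stm

set_option autoImplicit false

open MeasureTheory ProbabilityTheory Set Filter
open scoped ENNReal Topology

/-!
# MP_b1920d_pr, GC-C2: measurability with respect to the fields used
-/

namespace Pool.Agent.H629.GC.P.C2

open Pool.Agent.H629.GC

/-- joint measurability of the sums -/
theorem joint_S {Ω T : Type} [MeasurableSpace Ω] [MetricSpace T] [SecondCountableTopology T]
    [MeasurableSpace T] [BorelSpace T] (X : ℕ → T → Ω → ℝ) (m n : ℕ)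
    (hc : ∀ j ω, Continuous fun x => X j x ω)
    (hm : ∀ j ∈ Finset.Ico m n, ∀ x, Measurable (X j x)) :
    Measurable (fun z : T × Ω => S X m n z.1 z.2) := by
  unfold S
  refine Finset.measurable_sum _ fun j hj => ?_
  have h := measurable_uncurry_of_continuous_of_measurable (u := fun x ω => X j x ω)
    (fun ω => hc j ω) (fun x => hm j hj x)
  exact h

/-- the weights are measurable -/
theorem meas_W {Ω T : Type} [MeasurableSpace Ω] (X : ℕ → T → Ω → ℝ) (m n : ℕ)
    (hm : ∀ j ∈ Finset.Ico m n, ∀ x, Measurable (X j x)) (L : List (ℝ × T)) :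
    Measurable (W X L m n) := by
  have hS : ∀ x : T, Measurable (S X m n x) := by
    intro x
    have : S X m n x = fun ω => ∑ j ∈ Finset.Ico m n, X j x ω := rfl
    rw [this]
    exact Finset.measurable_sum _ fun j hj => hm j hj x
  have hev : Measurable (ev X L m n) := by
    induction L with
    | nil =>
      have : ev X [] m n = fun _ => (0 : ℝ) := by
        funext ω
        simp [ev]
      rw [this]
      exact measurable_const
    | cons a L ih =>
      have : ev X (a :: L) m n = fun ω => a.1 * S X m n a.2 ω + ev X L m n ω := by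
        funext ω
        simp [ev]
      rw [this]
      exact ((hS a.2).const_mul a.1).add ih
  have : W X L m n = fun ω => ENNReal.ofReal (Real.exp (ev X L m n ω)) := rfl
  rw [this]
  exact (Real.measurable_exp.comp hev).ennreal_ofReal

/-- joint measurability of the weight at one point -/
theorem joint_W1 {Ω T : Type} [MeasurableSpace Ω] [MetricSpace T] [SecondCountableTopology T]
    [MeasurableSpace T] [BorelSpace T] (X : ℕ → T → Ω → ℝ) (m n : ℕ)
    (hc : ∀ j ω, Continuous fun x => X j x ω)
    (hm : ∀ j ∈ Finset.Ico m n, ∀ x, Measurable (X j x)) (β : ℝ) :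
    Measurable (fun z : T × Ω => W X [(β, z.1)] m n z.2) := by
  have h : (fun z : T × Ω => W X [(β, z.1)] m n z.2) =
      fun z : T × Ω => ENNReal.ofReal (Real.exp (β * S X m n z.1 z.2)) := by
    funext z
    simp [W, ev]
  rw [h]
  exact (Real.measurable_exp.comp ((joint_S X m n hc hm).const_mul β)).ennreal_ofReal

/-- the expectation of the weight is a measurable function of the point -/
theorem meas_Ph {Ω T : Type} [MeasurableSpace Ω] [MetricSpace T] [SecondCountableTopology T]
    [MeasurableSpace T] [BorelSpace T] (P : Measure Ω) [SFinite P] (X : ℕ → T → Ω → ℝ) (m n : ℕ)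
    (hc : ∀ j ω, Continuous fun x => X j x ω)
    (hm : ∀ j ∈ Finset.Ico m n, ∀ x, Measurable (X j x)) (β : ℝ) :
    Measurable (fun x : T => Ph P X [(β, x)] m n) :=
  (joint_W1 X m n hc hm β).lintegral_prod_right'

/-- joint measurability of the quotient -/
theorem joint_div {Ω T : Type} [MeasurableSpace Ω] [MetricSpace T] [SecondCountableTopology T]
    [MeasurableSpace T] [BorelSpace T] (X : ℕ → T → Ω → ℝ) (m n : ℕ)
    (hc : ∀ j ω, Continuous fun x => X j x ω)
    (hm : ∀ j ∈ Finset.Ico m n, ∀ x, Measurable (X j x)) (β : ℝ) (c : T → ℝ≥0∞)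
    (hcm : Measurable c) :
    Measurable (fun z : T × Ω => W X [(β, z.1)] m n z.2 / c z.1) :=
  (joint_W1 X m n hc hm β).div (hcm.comp measurable_fst)

/-- measurability of the integral of the quotient -/
theorem meas_int {Ω T : Type} [MeasurableSpace Ω] [MetricSpace T] [SecondCountableTopology T]
    [MeasurableSpace T] [BorelSpace T] (X : ℕ → T → Ω → ℝ) (m n : ℕ)
    (hc : ∀ j ω, Continuous fun x => X j x ω)
    (hm : ∀ j ∈ Finset.Ico m n, ∀ x, Measurable (X j x)) (β : ℝ) (c : T → ℝ≥0∞)
    (hcm : Measurable c) (vol : Measure T) [SFinite vol] (B : Set T) :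
    Measurable (fun ω => ∫⁻ y in B, W X [(β, y)] m n ω / c y ∂vol) :=
  (joint_div X m n hc hm β c hcm).lintegral_prod_left'

/-- **C2** -/
theorem t_C2 : S_C2 := by
  intro Ω T mΩ iT i2 i3 i4 P X hX β vol hvol m n
  have hP : IsProbabilityMeasure P := hX.prob
  have hle : Sg X m n ≤ mΩ := by
    refine iSup₂_le fun j _ => ?_
    rw [← measurable_iff_comap_le]
    exact measurable_pi_lambda _ fun x => hX.meas j x
  have hm : ∀ j ∈ Finset.Ico m n, ∀ x, Measurable[Sg X m n] (X j x) := by
    intro j hj x
    have hj' : j ∈ Set.Ico m n := Finset.mem_Ico.1 hj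
    have h1 : MeasurableSpace.comap (fun (ω : Ω) (x : T) => X j x ω) MeasurableSpace.pi ≤
        Sg X m n :=
      le_iSup₂_of_le (f := fun (j : ℕ) (_ : j ∈ Set.Ico m n) =>
        MeasurableSpace.comap (fun (ω : Ω) (x : T) => X j x ω) MeasurableSpace.pi) j hj' le_rfl
    have h2 : Measurable[Sg X m n] (fun (ω : Ω) (x : T) => X j x ω) :=
      (comap_measurable _).mono h1 le_rfl
    exact (measurable_pi_apply x).comp h2
  have hPh : Measurable (fun x : T => Ph P X [(β, x)] m n) :=
    meas_Ph P X m n hX.cont (fun j _ x => hX.meas j x) β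
  refine ⟨hle, ?_, ?_, ?_, ?_⟩
  · intro L
    exact @meas_W Ω T (Sg X m n) X m n hm L
  · intro x
    exact (@meas_W Ω T (Sg X m n) X m n hm [(β, x)]).div_const _
  · intro B _
    exact @meas_int Ω T (Sg X m n) _ _ _ _ X m n hX.cont hm β _ hPh vol hvol B
  · exact joint_div X m n hX.cont (fun j _ x => hX.meas j x) β _ hPh

end Pool.Agent.H629.GC.P.C2
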