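-- part C3 of the GC project, proved by helper100
import Pool.Agent.H629.GC.Stm

/-!
GC-C3: multiplicativity of `W`, `Ph`, `gh`, positivity and finiteness of `Ph`.
-/

set_option autoImplicit false

open MeasureTheory ProbabilityTheory Set Filter
open scoped ENNReal Topology

namespace Pool.Agent.H629.GC.P.C3

open Pool.Agent.H629.GC

lemma S_split {Ω T : Type} (X : ℕ → T → Ω → ℝ) {m k n : ℕ} (h1 : m ≤ k) (h2 : k ≤ n) (x : T)
    (ω : Ω) : S X m n x ω = S X m k x ω + S X k n x ω :=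
  (Finset.sum_Ico_consecutive (fun j => X j x ω) h1 h2).symm

lemma ev_split {Ω T : Type} (X : ℕ → T → Ω → ℝ) (L : List (ℝ × T)) {m k n : ℕ}
    (h1 : m ≤ k) (h2 : k ≤ n) (ω : Ω) : ev X L m n ω = ev X L m k ω + ev X L k n ω := by
  unfold ev
  rw [← List.sum_map_add]
  congr 1
  apply List.map_congr_left
  intro a _
  rw [S_split X h1 h2, mul_add]

lemma W_split {Ω T : Type} (X : ℕ → T → Ω → ℝ) (L : List (ℝ × T)) {m k n : ℕ}
    (h1 : m ≤ k) (h2 : k ≤ n) (ω : Ω) : W X L m n ω = W X L m k ω * W X L k n ω := by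
  unfold W
  rw [ev_split X L h1 h2, Real.exp_add, ENNReal.ofReal_mul (Real.exp_pos _).le]

lemma ex_ne_zero (C : ℝ) : ex C ≠ 0 := by
  unfold ex
  rw [Ne, ENNReal.ofReal_eq_zero, not_le]
  exact Real.exp_pos C

theorem t_C3 : S_C1 → S_C2 → S_C3 := by
  intro hC1 hC2 Ω T _ _ _ _ _ P X Q s hX
  have hfin : ∀ (L : List (ℝ × T)) (m n : ℕ), (∀ a ∈ L, a.2 ∈ Q) → m ≤ n →
      Ph P X L m n ≠ 0 ∧ Ph P X L m n ≠ ∞ := by
    intro L m n hL hmn
    obtain ⟨C, hC⟩ := hX.mp L.length (L.map fun a => |a.1|).sum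
    have hA : Adm Q L.length (L.map fun a => |a.1|).sum L := by
      refine ⟨le_rfl, fun a ha => ?_, hL⟩
      refine List.single_le_sum ?_ _ (List.mem_map_of_mem ha)
      intro y hy
      obtain ⟨b, _, rfl⟩ := List.mem_map.1 hy
      exact abs_nonneg _
    obtain ⟨h1, h2⟩ := hC L m n hA hmn
    constructor
    · intro h0
      rw [h0, nonpos_iff_eq_zero] at h1
      exact ex_ne_zero _ h1
    · exact ne_top_of_le_ne_top ENNReal.ofReal_ne_top h2
  have hPh : ∀ (L : List (ℝ × T)) (m k n : ℕ), m ≤ k → k ≤ n →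
      Ph P X L m n = Ph P X L m k * Ph P X L k n := by
    intro L m k n h1 h2
    have hm1 := (hC2 Ω T _ _ inferInstance _ inferInstance P X hX.toBase 0 0 inferInstance m k).2.1 L
    have hm2 := (hC2 Ω T _ _ inferInstance _ inferInstance P X hX.toBase 0 0 inferInstance k n).2.1 L
    have h3 := hC1 Ω T _ _ P X hX.toBase m k n (W X L m k) (W X L k n) hm1 hm2
    unfold Ph
    rw [← h3]
    refine lintegral_congr fun ω => ?_
    exact W_split X L h1 h2 ω
  refine ⟨hfin, fun L m k n ω h1 h2 => W_split X L h1 h2 ω, hPh, ?_⟩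
  intro β x m k n ω hx h1 h2
  obtain ⟨a0, a1⟩ := hfin [(β, x)] m k (by simpa using hx) h1
  obtain ⟨b0, b1⟩ := hfin [(β, x)] k n (by simpa using hx) h2
  unfold gh
  rw [W_split X _ h1 h2, hPh _ m k n h1 h2, div_eq_mul_inv, div_eq_mul_inv, div_eq_mul_inv,
    ENNReal.mul_inv (Or.inl a0) (Or.inl a1)]
  ring

end Pool.Agent.H629.GC.P.C3
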