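-- part C4 of the GC project, proved by helper695
import Pool.Agent.H629.GC.Stm

/-! C4: the masses form a martingale. -/

set_option autoImplicit false

open MeasureTheory ProbabilityTheory Set Filter
open scoped ENNReal Topology

namespace Pool.Agent.H629.GC.P.C4

open Pool.Agent.H629.GC

lemma W_mul {Ω T : Type} (X : ℕ → T → Ω → ℝ) (β : ℝ) (x : T) {m k n : ℕ}
    (hmk : m ≤ k) (hkn : k ≤ n) (ω : Ω) :
    W X [(β, x)] m n ω = W X [(β, x)] m k ω * W X [(β, x)] k n ω := by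
  unfold W ev S
  rw [← ENNReal.ofReal_mul (Real.exp_pos _).le, ← Real.exp_add]
  congr 2
  simp only [List.map_cons, List.map_nil, List.sum_cons, List.sum_nil, add_zero]
  rw [← mul_add, Finset.sum_Ico_consecutive _ hmk hkn]

lemma W_ne_zero {Ω T : Type} (X : ℕ → T → Ω → ℝ) (L : List (ℝ × T)) (m n : ℕ) (ω : Ω) :
    W X L m n ω ≠ 0 := by
  unfold W
  exact (ENNReal.ofReal_pos.2 (Real.exp_pos _)).ne'

lemma meas_mul {Ω : Type} (m : MeasurableSpace Ω) {f g : Ω → ℝ≥0∞} (hf : Measurable[m] f)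
    (hg : Measurable[m] g) : Measurable[m] (fun ω => f ω * g ω) := hf.mul hg

lemma swap {Ω T : Type} [MeasurableSpace Ω] [MeasurableSpace T] (P : Measure Ω) (μ : Measure T)
    [SFinite P] [SFinite μ] (g : Ω → ℝ≥0∞) (f : T → Ω → ℝ≥0∞) (hg : Measurable g)
    (hf : Measurable (fun z : T × Ω => f z.1 z.2)) :
    ∫⁻ ω, g ω * ∫⁻ y, f y ω ∂μ ∂P = ∫⁻ y, ∫⁻ ω, g ω * f y ω ∂P ∂μ := by
  have h1 : ∀ ω, g ω * ∫⁻ y, f y ω ∂μ = ∫⁻ y, g ω * f y ω ∂μ := by
    intro ω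
    exact (lintegral_const_mul (g ω) (hf.comp (measurable_id.prodMk measurable_const))).symm
  simp_rw [h1]
  apply lintegral_lintegral_swap
  apply Measurable.aemeasurable
  exact (hg.comp measurable_fst).mul (hf.comp measurable_swap)

theorem t_C4 : S_C1 → S_C2 → S_C4 := by
  intro hC1 hC2 Ω T mΩ mT sT msT bT P X hB β hfin vol hvol A hA n n' hnn g hg
  have hprob := hB.prob
  obtain ⟨hle, hW, hgh, hZ, hj⟩ := hC2 Ω T mΩ mT sT msT bT P X hB β vol hvol 0 n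
  obtain ⟨hle1, hW1, hgh1, hZ1, hj1⟩ := hC2 Ω T mΩ mT sT msT bT P X hB β vol hvol n n'
  obtain ⟨hle2, hW2, hgh2, hZ2, hj2⟩ := hC2 Ω T mΩ mT sT msT bT P X hB β vol hvol 0 n'
  have hPh0 : ∀ (x : T) (m k : ℕ), Ph P X [(β, x)] m k ≠ 0 := by
    intro x m k h0
    have hm : Measurable (W X [(β, x)] m k) :=
      ((hC2 Ω T mΩ mT sT msT bT P X hB β vol hvol m k).2.1 _).mono
        (hC2 Ω T mΩ mT sT msT bT P X hB β vol hvol m k).1 le_rfl
    unfold Ph at h0
    rw [lintegral_eq_zero_iff hm] at h0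
    obtain ⟨ω, hω⟩ := h0.exists
    exact W_ne_zero X _ m k ω hω
  have hPhmul : ∀ x : T, Ph P X [(β, x)] 0 n' = Ph P X [(β, x)] 0 n * Ph P X [(β, x)] n n' := by
    intro x
    unfold Ph
    rw [← hC1 Ω T mΩ mT P X hB 0 n n' _ _ (hW _) (hW1 _)]
    apply lintegral_congr
    intro ω
    exact W_mul X β x (Nat.zero_le n) hnn ω
  have hghmul : ∀ (x : T) (ω : Ω),
      gh P X β 0 n' x ω = gh P X β 0 n x ω * gh P X β n n' x ω := by
    intro x ω
    unfold gh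
    rw [hPhmul x, W_mul X β x (Nat.zero_le n) hnn ω, div_eq_mul_inv, div_eq_mul_inv,
      div_eq_mul_inv, ENNReal.mul_inv (Or.inl (hPh0 x 0 n)) (Or.inl (hfin x 0 n))]
    ring
  have hone : ∀ x : T, ∫⁻ ω, gh P X β n n' x ω ∂P = 1 := by
    intro x
    have hm : Measurable (W X [(β, x)] n n') := (hW1 _).mono hle1 le_rfl
    unfold gh
    simp only [div_eq_mul_inv]
    rw [lintegral_mul_const _ hm]
    exact ENNReal.mul_inv_cancel (hPh0 x n n') (hfin x n n')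
  have hgm : Measurable g := hg.mono hle le_rfl
  have hstep : ∀ k : ℕ, Measurable (fun z : T × Ω => gh P X β 0 k z.1 z.2) →
      ∫⁻ ω, g ω * Z P X β vol 0 k A ω ∂P =
        ∫⁻ y in A, ∫⁻ ω, g ω * gh P X β 0 k y ω ∂P ∂vol :=
    fun k hk => swap P (vol.restrict A) g (fun y ω => gh P X β 0 k y ω) hgm hk
  rw [hstep n' hj2, hstep n hj]
  apply lintegral_congr
  intro y
  have h2 : ∀ ω, g ω * gh P X β 0 n' y ω = (g ω * gh P X β 0 n y ω) * gh P X β n n' y ω := by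
    intro ω
    rw [hghmul y ω, mul_assoc]
  simp_rw [h2]
  have hU : Measurable[Sg X 0 n] (fun ω => g ω * gh P X β 0 n y ω) := meas_mul _ hg (hgh y)
  rw [hC1 Ω T mΩ mT P X hB 0 n n' _ _ hU (hgh1 y), hone y, mul_one]

end Pool.Agent.H629.GC.P.C4
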