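-- part E0 of the GC project, proved by helper921
import Pool.Agent.H629.GC.Stm

/-!
# The moments of the orders `0 ≤ q ≤ 1`
-/

set_option autoImplicit false

open MeasureTheory ProbabilityTheory Set Filter
open scoped ENNReal Topology

namespace Pool.Agent.H629.GC.P.E0

open Pool.Agent.H629.GC

theorem ex_add (a b : ℝ) : ex (a + b) = ex a * ex b := by
  unfold ex
  rw [Real.exp_add, ENNReal.ofReal_mul (Real.exp_pos a).le]

theorem ex_ne_zero (a : ℝ) : ex a ≠ 0 := by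
  unfold ex
  rw [ne_eq, ENNReal.ofReal_eq_zero, not_le]
  exact Real.exp_pos a

theorem ex_ne_top (a : ℝ) : ex a ≠ ∞ := ENNReal.ofReal_ne_top

theorem ex_rpow (a r : ℝ) : ex a ^ r = ex (a * r) := by
  unfold ex
  rw [ENNReal.ofReal_rpow_of_pos (Real.exp_pos a), Real.exp_mul]

theorem hm1 {Ω T : Type} [MeasurableSpace Ω] [MeasurableSpace T] (f : T → Ω → ℝ≥0∞)
    (h : Measurable fun z : T × Ω => f z.1 z.2) (ω : Ω) : Measurable fun y => f y ω :=
  h.comp (f := fun y : T => (y, ω)) measurable_prodMk_right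

theorem hm2 {Ω T : Type} [MeasurableSpace Ω] [MeasurableSpace T] (f : T → Ω → ℝ≥0∞) (w : Ω → ℝ≥0∞)
    (hw : Measurable w)
    (h : Measurable fun z : T × Ω => f z.1 z.2) :
    Measurable (Function.uncurry fun (ω : Ω) (y : T) => w ω * f y ω) :=
  (hw.comp measurable_fst).mul
    (h.comp (f := fun z : Ω × T => (z.2, z.1)) (measurable_snd.prodMk measurable_fst))

theorem swp {Ω T : Type} [MeasurableSpace Ω] [MeasurableSpace T] (P : Measure Ω) [SFinite P]
    (ν : Measure T) [SFinite ν] (f : T → Ω → ℝ≥0∞) (w : Ω → ℝ≥0∞)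
    (hw : Measurable w) (h : Measurable fun z : T × Ω => f z.1 z.2) :
    ∫⁻ ω, w ω * (∫⁻ y, f y ω ∂ν) ∂P = ∫⁻ y, (∫⁻ ω, w ω * f y ω ∂P) ∂ν := by
  have e1 : ∀ ω, w ω * (∫⁻ y, f y ω ∂ν) = ∫⁻ y, w ω * f y ω ∂ν := fun ω =>
    (lintegral_const_mul (w ω) (hm1 f h ω)).symm
  rw [lintegral_congr e1]
  exact lintegral_lintegral_swap (hm2 f w hw h).aemeasurable

theorem t_E0 : S_A1 → S_C2 → S_C3 → S_D3 → S_E0 := by
  intro hA1 hC2 hC3 hD3 Ω T i1 i2 i4 i3 i5 P X Q s vol β d hCh hQ hvol hReg hd q hq0 hq1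
  have := hCh.prob
  intro N Λ c hc
  obtain ⟨C1, hC1⟩ := hD3 Ω T i1 i2 P X Q s hCh β N Λ c hc
  obtain ⟨C', hR⟩ := hReg
  refine ⟨q * (C' + C1), ?_⟩
  intro L m n A z hmn hL hA hAQ hAz hfar
  obtain ⟨hSg, hW, -, hZ, hgh⟩ := hC2 Ω T i1 i2 i4 i3 i5 P X hCh.toBase β vol hvol m n
  have hWm : Measurable (W X L m n) := (hW L).mono hSg le_rfl
  have hZm : Measurable (Z P X β vol m n A) := (hZ A hA).mono hSg le_rfl
  obtain ⟨hP0, hPt⟩ := (hC3 Ω T i1 i2 i4 i3 i5 P X Q s hCh).1 L m n hL.pt hmn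
  -- the first order
  have h1 : ∫⁻ ω, W X L m n ω * Z P X β vol m n A ω ∂P =
      ∫⁻ y in A, (∫⁻ ω, W X L m n ω * gh P X β m n y ω ∂P) ∂vol := by
    exact swp P (vol.restrict A) (gh P X β m n) (W X L m n) hWm hgh
  have h2 : ∫⁻ ω, W X L m n ω * Z P X β vol m n A ω ∂P ≤
      ex (C' + d * (-(s m)) + C1) * Ph P X L m n := by
    rw [h1]
    calc ∫⁻ y in A, (∫⁻ ω, W X L m n ω * gh P X β m n y ω ∂P) ∂vol
        ≤ ∫⁻ _ in A, ex C1 * Ph P X L m n ∂vol := by
          apply setLIntegral_mono' hA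
          intro y hy
          refine (hC1 L m n y hmn hL (hAQ hy) ?_).1
          rcases hfar with h | h
          · exact Or.inl h
          · right
            intro a ha y' hy'
            rw [mem_singleton_iff] at hy'
            rw [hy']
            exact h a ha y hy
      _ = ex C1 * Ph P X L m n * vol A := by rw [setLIntegral_const]
      _ ≤ ex C1 * Ph P X L m n * ex (C' + d * (-(s m))) := by
          gcongr
          exact (measure_mono hAz).trans (hR z _)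
      _ = _ := by rw [ex_add (C' + d * (-(s m))) C1]; ring
  have h3 := hA1 Ω i1 P (W X L m n) (Z P X β vol m n A) hWm.aemeasurable hZm.aemeasurable q hq0 hq1
  calc ∫⁻ ω, W X L m n ω * Z P X β vol m n A ω ^ q ∂P
      ≤ (Ph P X L m n) ^ (1 - q) * (∫⁻ ω, W X L m n ω * Z P X β vol m n A ω ∂P) ^ q := h3
    _ ≤ (Ph P X L m n) ^ (1 - q) * (ex (C' + d * (-(s m)) + C1) * Ph P X L m n) ^ q := by
        gcongr
    _ = ex ((C' + d * (-(s m)) + C1) * q) * (Ph P X L m n) ^ ((1 - q) + q) := by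
        rw [ENNReal.mul_rpow_of_nonneg _ _ hq0, ex_rpow, ENNReal.rpow_add _ _ hP0 hPt]
        ring
    _ = ex (q * (C' + C1) - d * q * s m) * Ph P X L m n := by
        rw [sub_add_cancel, ENNReal.rpow_one]
        congr 2
        ring

end Pool.Agent.H629.GC.P.E0
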