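-- part E1 of the GC project, proved by helper696
import Pool.Agent.H629.GC.Stm

set_option autoImplicit false

open MeasureTheory ProbabilityTheory Set Filter
open scoped ENNReal Topology

/-!
# Moments of non-Gaussian multiplicative chaos (MP_b1920d_pr): one piece, orders `0 < r < 1`
-/

namespace Pool.Agent.H629.GC.P.E1

open Pool.Agent.H629.GC

theorem ex_add (a b : ℝ) : ex (a + b) = ex a * ex b := by
  unfold ex
  rw [Real.exp_add, ENNReal.ofReal_mul (Real.exp_pos _).le]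

theorem ex_ne_zero (a : ℝ) : ex a ≠ 0 := by
  unfold ex
  exact (ENNReal.ofReal_pos.2 (Real.exp_pos _)).ne'

theorem ex_ne_top (a : ℝ) : ex a ≠ ∞ := by
  unfold ex
  exact ENNReal.ofReal_ne_top

theorem ex_rpow (a r : ℝ) : ex a ^ r = ex (a * r) := by
  unfold ex
  rw [ENNReal.ofReal_rpow_of_pos (Real.exp_pos _), Real.exp_mul]

theorem ex_mono {a b : ℝ} (h : a ≤ b) : ex a ≤ ex b := by
  unfold ex
  exact ENNReal.ofReal_le_ofReal (Real.exp_le_exp.2 h)

section

variable {Ω T : Type}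

theorem W_ne_zero (X : ℕ → T → Ω → ℝ) (L : List (ℝ × T)) (m n : ℕ) (ω : Ω) :
    W X L m n ω ≠ 0 := ex_ne_zero _

theorem W_ne_top (X : ℕ → T → Ω → ℝ) (L : List (ℝ × T)) (m n : ℕ) (ω : Ω) :
    W X L m n ω ≠ ∞ := ex_ne_top _

theorem far_mono [MetricSpace T] {c t t' : ℝ} (hc : 0 ≤ c) (h : t ≤ t') {L : List (ℝ × T)}
    {A : Set T} (hf : Far c t L A) : Far c t' L A := by
  intro a ha y hy
  refine le_trans ?_ (hf a ha y hy)
  exact mul_le_mul_of_nonneg_left (Real.exp_le_exp.2 (by linarith)) hc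

theorem far_sub [MetricSpace T] {c t : ℝ} {L : List (ℝ × T)}
    {A B : Set T} (h : B ⊆ A) (hf : Far c t L A) : Far c t L B :=
  fun a ha y hy => hf a ha y (h hy)

theorem adm_mono {Q : Set T} {N : ℕ} {Λ Λ' : ℝ} {L : List (ℝ × T)} (h : Adm Q N Λ L)
    (hΛ : Λ ≤ Λ') : Adm Q N Λ' L :=
  ⟨h.len, fun a ha => (h.wt a ha).trans hΛ, h.pt⟩

end

theorem t_E1 : S_A1 → S_C1 → S_C2 → S_C3 → S_D1 → S_D2 → S_D3 → S_E1 := by
  intro hA1 hC1 hC2 hC3 hD1 hD2 hD3
  intro Ω T i1 i2 i3 i4 i5 P X Q s vol β d hX hQ hvol hReg hd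
  intro r u hr0 hr1 N Λ c R hc
  obtain ⟨Λ', hΛ'⟩ : ∃ Λ', Λ' = max (max Λ |1 + u + r|) (max |u + r| 1) := ⟨_, rfl⟩
  have hΛ1 : Λ ≤ Λ' := by rw [hΛ']; exact (le_max_left _ _).trans (le_max_left _ _)
  have hΛ2 : |1 + u + r| ≤ Λ' := by rw [hΛ']; exact (le_max_right _ _).trans (le_max_left _ _)
  have hΛ3 : |u + r| ≤ Λ' := by rw [hΛ']; exact (le_max_left _ _).trans (le_max_right _ _)
  have hΛ4 : 1 ≤ Λ' := by rw [hΛ']; exact (le_max_right _ _).trans (le_max_right _ _)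
  have hprob := hX.prob
  obtain ⟨c1, h1⟩ := hD1 Ω T i1 i2 P X Q s hX β N Λ' c (max R 0) hc
  obtain ⟨c2, h2⟩ := hD2 Ω T i1 i2 P X Q s hX β N Λ' c hc
  obtain ⟨c3, h3⟩ := hD3 Ω T i1 i2 P X Q s hX β N Λ' c hc
  obtain ⟨c4, h4⟩ := hReg
  obtain ⟨hPh, hWm, hPhm, hghm⟩ := hC3 Ω T i1 i2 i3 i4 i5 P X Q s hX
  refine ⟨(c1 + c3) * (1 - r) + (c1 + c2 + c4) * r, ?_⟩
  intro L m k n B x z hmk hkn hL hBm hBQ hx hBz hBx hkB hfB hfx
  have hL' := adm_mono hL hΛ1
  have hsm : s m ≤ s k := hX.mono hmk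
  have hmn := hmk.trans hkn
  -- the densities at the points of `Q`
  have hgh : ∀ (a b : ℕ), a ≤ b → ∀ y ∈ Q, ∀ ω, gh P X β a b y ω ≠ 0 ∧ gh P X β a b y ω ≠ ∞ := by
    intro a b hab y hy ω
    obtain ⟨e1, e2⟩ := hPh [(β, y)] a b (by
      intro t ht
      rw [List.mem_singleton] at ht
      rw [ht]
      exact hy) hab
    unfold gh
    refine ⟨?_, ?_⟩
    · exact (ENNReal.div_ne_zero).2 ⟨W_ne_zero _ _ _ _ _, e2⟩
    · exact ENNReal.div_ne_top (W_ne_top _ _ _ _ _) e1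
  -- measurability
  obtain ⟨hle1, hWm1, hgm1, -, hjm1⟩ := hC2 Ω T i1 i2 i3 i4 i5 P X hX.toBase β vol hvol m k
  obtain ⟨hle2, hWm2, hgm2, -, hjm2⟩ := hC2 Ω T i1 i2 i3 i4 i5 P X hX.toBase β vol hvol k n
  obtain ⟨hle3, hWm3, hgm3, hZm3, hjm3⟩ := hC2 Ω T i1 i2 i3 i4 i5 P X hX.toBase β vol hvol m n
  have hWm3' : Measurable (W X L m n) := (hWm3 L).mono hle3 le_rfl
  have hgm3' : Measurable (gh P X β m n x) := (hgm3 x).mono hle3 le_rfl
  have hgm1' : Measurable (gh P X β m k x) := (hgm1 x).mono hle1 le_rfl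
  obtain ⟨G, hG⟩ : ∃ G : Ω → ℝ≥0∞, G = fun ω =>
    W X L m n ω * gh P X β m n x ω * gh P X β m k x ω ^ (u + r) := ⟨_, rfl⟩
  obtain ⟨h, hh⟩ : ∃ h : T → Ω → ℝ≥0∞, h = fun y ω =>
    gh P X β m k y ω / gh P X β m k x ω * gh P X β k n y ω := ⟨_, rfl⟩
  have hGm : Measurable G := by
    rw [hG]
    exact (hWm3'.mul hgm3').mul (hgm1'.pow_const _)
  have hhm : Measurable (fun z : T × Ω => h z.1 z.2) := by
    rw [hh]
    exact (hjm1.div (hgm1'.comp measurable_snd)).mul hjm2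
  obtain ⟨Y, hY⟩ : ∃ Y : Ω → ℝ≥0∞, Y = fun ω => ∫⁻ y in B, h y ω ∂vol := ⟨_, rfl⟩
  have hYm : Measurable Y := by
    rw [hY]
    exact Measurable.lintegral_prod_left' (μ := vol.restrict B) hhm
  -- the integrand
  have hint : ∀ ω, W X L m n ω * gh P X β m n x ω * gh P X β m k x ω ^ u *
      Z P X β vol m n B ω ^ r = G ω * Y ω ^ r := by
    intro ω
    obtain ⟨e1, e2⟩ := hgh m k hmk x hx ω
    have hZ : Z P X β vol m n B ω = gh P X β m k x ω * Y ω := by
      rw [hY]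
      unfold Z
      show _ = _ * ∫⁻ y in B, h y ω ∂vol
      rw [← lintegral_const_mul' _ _ e2]
      refine setLIntegral_congr_fun hBm fun y hy => ?_
      rw [hghm β y m k n ω (hBQ hy) hmk hkn, hh]
      show _ = gh P X β m k x ω * (gh P X β m k y ω / gh P X β m k x ω * gh P X β k n y ω)
      rw [← mul_assoc, ENNReal.mul_div_cancel e1 e2]
    rw [hZ, ENNReal.mul_rpow_of_nonneg _ _ hr0.le, hG]
    show _ = W X L m n ω * gh P X β m n x ω * gh P X β m k x ω ^ (u + r) * Y ω ^ r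
    rw [ENNReal.rpow_add _ _ e1 e2]
    ring
  have hκ : ∃ κ : ℝ, κ = β ^ 2 / 2 * ((1 + u + r) ^ 2 - (1 + u + r)) := ⟨_, rfl⟩
  obtain ⟨κ, hκ⟩ := hκ
  -- the integral of `G`
  have hIG : ∫⁻ ω, G ω ∂P ≤ ex (c1 + c3 + κ * (s k - s m)) * Ph P X L m n := by
    have e1 : ∫⁻ ω, G ω ∂P = (∫⁻ ω, W X L m k ω * gh P X β m k x ω ^ (1 + u + r) ∂P) *
        ∫⁻ ω, W X L k n ω * gh P X β k n x ω ∂P := by
      rw [← hC1 Ω T i1 i2 P X hX.toBase m k n]
      · refine lintegral_congr fun ω => ?_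
        obtain ⟨e1, e2⟩ := hgh m k hmk x hx ω
        rw [hG]
        show W X L m n ω * gh P X β m n x ω * gh P X β m k x ω ^ (u + r) = _
        have e3 : gh P X β m k x ω ^ (1 + u + r) =
            gh P X β m k x ω * gh P X β m k x ω ^ (u + r) := by
          rw [show (1 + u + r : ℝ) = 1 + (u + r) by ring, ENNReal.rpow_add 1 (u + r) e1 e2,
            ENNReal.rpow_one]
        rw [hWm L m k n ω hmk hkn, hghm β x m k n ω hx hmk hkn, e3]
        ring
      · exact (hWm1 L).mul ((hgm1 x).pow_const _)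
      · exact (hWm2 L).mul (hgm2 x)
    have e2 := (h1 L m k x x (1 + u + r) 0 hmk hL' hx hx hΛ2
      (by rw [abs_zero]; linarith) (by
        rw [dist_self]
        exact mul_nonneg (le_max_right _ _) (Real.exp_pos _).le) hfx hfx).2
    have e3 := (h3 L k n x hkn hL' hx (Or.inr (far_mono hc.le hsm hfx))).1
    rw [add_zero, ← hκ] at e2
    have e2' : ∫⁻ ω, W X L m k ω * gh P X β m k x ω ^ (1 + u + r) ∂P ≤
        ex (c1 + κ * (s k - s m)) * Ph P X L m k := by
      refine le_trans (le_of_eq ?_) e2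
      refine lintegral_congr fun ω => ?_
      rw [ENNReal.rpow_zero, mul_one]
    rw [e1, hPhm L m k n hmk hkn]
    calc _ ≤ (ex (c1 + κ * (s k - s m)) * Ph P X L m k) * (ex c3 * Ph P X L k n) :=
          mul_le_mul' e2' e3
      _ = ex (c1 + c3 + κ * (s k - s m)) * (Ph P X L m k * Ph P X L k n) := by
          rw [show c1 + c3 + κ * (s k - s m) = (c1 + κ * (s k - s m)) + c3 by ring,
            ex_add (c1 + κ * (s k - s m)) c3]
          ring
  -- the integral of `G Y`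
  have hIGY : ∫⁻ ω, G ω * Y ω ∂P ≤
      ex (c1 + c2 + c4 + κ * (s k - s m) - d * s k) * Ph P X L m n := by
    have e1 : ∫⁻ ω, G ω * Y ω ∂P = ∫⁻ y in B, ∫⁻ ω, G ω * h y ω ∂P ∂vol := by
      rw [lintegral_lintegral_swap]
      · refine lintegral_congr fun ω => ?_
        rw [hY]
        show G ω * ∫⁻ y in B, h y ω ∂vol = _
        rw [lintegral_const_mul]
        exact hhm.comp measurable_prodMk_right
      · refine Measurable.aemeasurable ?_
        exact (hGm.comp measurable_snd).mul hhm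
    have e2 : ∀ y ∈ B, ∫⁻ ω, G ω * h y ω ∂P ≤
        ex (c1 + c2 + κ * (s k - s m)) * Ph P X L m n := by
      intro y hy
      have hyQ := hBQ hy
      have hfy : Far c (s m) L {y} := far_sub (Set.singleton_subset_iff.2 hy) hfB
      have e1 : ∫⁻ ω, G ω * h y ω ∂P =
          (∫⁻ ω, W X L m k ω * gh P X β m k x ω ^ (u + r) * gh P X β m k y ω ^ (1 : ℝ) ∂P) *
          ∫⁻ ω, W X L k n ω * gh P X β k n x ω * gh P X β k n y ω ∂P := by
        rw [← hC1 Ω T i1 i2 P X hX.toBase m k n]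
        · refine lintegral_congr fun ω => ?_
          obtain ⟨e1, e2⟩ := hgh m k hmk x hx ω
          rw [hG, hh]
          show W X L m n ω * gh P X β m n x ω * gh P X β m k x ω ^ (u + r) *
            (gh P X β m k y ω / gh P X β m k x ω * gh P X β k n y ω) = _
          rw [hWm L m k n ω hmk hkn, hghm β x m k n ω hx hmk hkn, ENNReal.rpow_one]
          have e3 : gh P X β m k x ω * (gh P X β m k y ω / gh P X β m k x ω) = gh P X β m k y ω :=
            ENNReal.mul_div_cancel e1 e2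
          calc _ = W X L m k ω * W X L k n ω * gh P X β k n x ω * gh P X β m k x ω ^ (u + r) *
                (gh P X β m k x ω * (gh P X β m k y ω / gh P X β m k x ω)) *
                gh P X β k n y ω := by ring
            _ = _ := by
              rw [e3]
              ring
        · exact ((hWm1 L).mul ((hgm1 x).pow_const _)).mul ((hgm1 y).pow_const _)
        · exact ((hWm2 L).mul (hgm2 x)).mul (hgm2 y)
      have e2 := (h1 L m k x y (u + r) 1 hmk hL' hx hyQ hΛ3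
        (by rw [abs_one]; exact hΛ4) (by
          refine (hBx y hy).trans ?_
          exact mul_le_mul_of_nonneg_right (le_max_left _ _) (Real.exp_pos _).le) hfx hfy).2
      rw [show u + r + 1 = 1 + u + r by ring, ← hκ] at e2
      have e3 := (h2 L k n x y hkn hL' hx hyQ (by
        rcases hkB with h | h
        · exact Or.inl h
        · exact Or.inr ⟨h y hy, far_mono hc.le hsm hfx, far_mono hc.le hsm hfy⟩)).2
      rw [e1, hPhm L m k n hmk hkn]
      calc _ ≤ (ex (c1 + κ * (s k - s m)) * Ph P X L m k) * (ex c2 * Ph P X L k n) :=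
            mul_le_mul' e2 e3
        _ = ex (c1 + c2 + κ * (s k - s m)) * (Ph P X L m k * Ph P X L k n) := by
            rw [show c1 + c2 + κ * (s k - s m) = (c1 + κ * (s k - s m)) + c2 by ring,
              ex_add (c1 + κ * (s k - s m)) c2]
            ring
    have e3 : vol B ≤ ex (c4 + d * -(s k)) := (measure_mono hBz).trans (h4 z (-(s k)))
    rw [e1]
    calc ∫⁻ y in B, ∫⁻ ω, G ω * h y ω ∂P ∂vol
        ≤ ∫⁻ y in B, ex (c1 + c2 + κ * (s k - s m)) * Ph P X L m n ∂vol :=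
          setLIntegral_mono' hBm e2
      _ = ex (c1 + c2 + κ * (s k - s m)) * Ph P X L m n * vol B := by
          rw [setLIntegral_const]
      _ ≤ ex (c1 + c2 + κ * (s k - s m)) * Ph P X L m n * ex (c4 + d * -(s k)) :=
          mul_le_mul_right e3 _
      _ = _ := by
          rw [show c1 + c2 + c4 + κ * (s k - s m) - d * s k =
            (c1 + c2 + κ * (s k - s m)) + (c4 + d * -(s k)) by ring,
            ex_add (c1 + c2 + κ * (s k - s m)) (c4 + d * -(s k))]
          ring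
  -- conclusion
  obtain ⟨p0, pt⟩ := hPh L m n (fun a ha => hL.pt a ha) hmn
  calc ∫⁻ ω, W X L m n ω * gh P X β m n x ω * gh P X β m k x ω ^ u *
        Z P X β vol m n B ω ^ r ∂P = ∫⁻ ω, G ω * Y ω ^ r ∂P := lintegral_congr hint
    _ ≤ (∫⁻ ω, G ω ∂P) ^ (1 - r) * (∫⁻ ω, G ω * Y ω ∂P) ^ r :=
        hA1 Ω i1 P G Y hGm.aemeasurable hYm.aemeasurable r hr0.le hr1.le
    _ ≤ (ex (c1 + c3 + κ * (s k - s m)) * Ph P X L m n) ^ (1 - r) *
        (ex (c1 + c2 + c4 + κ * (s k - s m) - d * s k) * Ph P X L m n) ^ r :=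
        mul_le_mul' (ENNReal.rpow_le_rpow hIG (by linarith)) (ENNReal.rpow_le_rpow hIGY hr0.le)
    _ = ex ((c1 + c3) * (1 - r) + (c1 + c2 + c4) * r +
          β ^ 2 / 2 * ((1 + u + r) ^ 2 - (1 + u + r)) * (s k - s m) - d * r * s k) *
          Ph P X L m n := by
        rw [ENNReal.mul_rpow_of_nonneg _ _ (by linarith), ENNReal.mul_rpow_of_nonneg _ _ hr0.le,
          ex_rpow, ex_rpow, ← hκ]
        have e1 : Ph P X L m n ^ (1 - r) * Ph P X L m n ^ r = Ph P X L m n := by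
          rw [← ENNReal.rpow_add _ _ p0 pt, sub_add_cancel, ENNReal.rpow_one]
        have e2 : (c1 + c3) * (1 - r) + (c1 + c2 + c4) * r + κ * (s k - s m) - d * r * s k =
            (c1 + c3 + κ * (s k - s m)) * (1 - r) +
            (c1 + c2 + c4 + κ * (s k - s m) - d * s k) * r := by ring
        rw [e2, ex_add ((c1 + c3 + κ * (s k - s m)) * (1 - r))
          ((c1 + c2 + c4 + κ * (s k - s m) - d * s k) * r)]
        calc _ = ex ((c1 + c3 + κ * (s k - s m)) * (1 - r)) *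
              ex ((c1 + c2 + c4 + κ * (s k - s m) - d * s k) * r) *
              (Ph P X L m n ^ (1 - r) * Ph P X L m n ^ r) := by ring
          _ = _ := by rw [e1]

end Pool.Agent.H629.GC.P.E1
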