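-- part E2 of the GC project, proved by helper37
import Pool.Agent.H629.GC.Stm

set_option autoImplicit false

open MeasureTheory ProbabilityTheory Set Filter
open scoped ENNReal Topology

/-!
# Moments of non-Gaussian multiplicative chaos (MP_b1920d_pr): the part E2
-/

namespace Pool.Agent.H629.GC.P.E2

open Pool.Agent.H629.GC

noncomputable section

theorem ex_add (a b : ℝ) : ex (a + b) = ex a * ex b := by
  unfold ex
  rw [Real.exp_add, ENNReal.ofReal_mul (Real.exp_pos a).le]

theorem W_ne_zero {Ω T : Type} (X : ℕ → T → Ω → ℝ) (L : List (ℝ × T)) (m n : ℕ) (ω : Ω) :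
    W X L m n ω ≠ 0 := by
  unfold W
  rw [Ne, ENNReal.ofReal_eq_zero, not_le]
  exact Real.exp_pos _

theorem W_ne_top {Ω T : Type} (X : ℕ → T → Ω → ℝ) (L : List (ℝ × T)) (m n : ℕ) (ω : Ω) :
    W X L m n ω ≠ ∞ := by
  unfold W
  exact ENNReal.ofReal_ne_top

theorem W_cons {Ω T : Type} (X : ℕ → T → Ω → ℝ) (a : ℝ × T) (L : List (ℝ × T)) (m n : ℕ)
    (ω : Ω) : W X (a :: L) m n ω = W X [a] m n ω * W X L m n ω := by
  unfold W ev
  rw [← ENNReal.ofReal_mul (Real.exp_pos _).le, ← Real.exp_add]
  simp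

theorem sec {Ω T : Type} [MeasurableSpace Ω] [MeasurableSpace T] (F : T → Ω → ℝ≥0∞)
    (h : Measurable fun z : T × Ω => F z.1 z.2) (ω : Ω) : Measurable fun y => F y ω :=
  h.comp (measurable_id.prodMk measurable_const)

theorem swp {Ω T : Type} [MeasurableSpace Ω] [MeasurableSpace T] (F : T → Ω → ℝ≥0∞)
    (h : Measurable fun z : T × Ω => F z.1 z.2) : Measurable fun p : Ω × T => F p.2 p.1 :=
  h.comp measurable_swap

theorem cfst {Ω T : Type} [MeasurableSpace Ω] [MeasurableSpace T] (F : Ω → ℝ≥0∞)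
    (h : Measurable F) : Measurable fun p : Ω × T => F p.1 :=
  h.comp measurable_fst

theorem t_E2 : S_A1b → S_C1 → S_C2 → S_C3 → S_D1 → S_D3 → S_E2 := by
  intro hA hC1 hC2 hC3 hD1 hD3 Ω T i₁ i₂ i₅ i₃ i₄ P X Q s vol β d hCh hQ hSF hReg hd r u hr hCl
  intro N Λ c R hc
  obtain ⟨C1, h1⟩ := hD1 Ω T i₁ i₂ P X Q s hCh β N (max Λ (max |1 + u| |r|)) c R hc
  obtain ⟨C2, h2⟩ := hCl (N + 1) (max Λ |β|) c hc
  obtain ⟨C3, h3⟩ := hD3 Ω T i₁ i₂ P X Q s hCh β N Λ c hc
  refine ⟨C1 + C2 + C3, ?_⟩
  intro L m k n B x z hmk hkn hAdm hBm hBQ hxQ hBz hBR hfar hFB hFx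
  have : IsProbabilityMeasure P := hCh.prob
  have : SFinite vol := hSF
  have hmn : m ≤ n := hmk.trans hkn
  obtain ⟨hPh, hWm, hPhm, hghm⟩ := hC3 Ω T i₁ i₂ i₅ i₃ i₄ P X Q s hCh
  obtain ⟨hSmk, hW1, hg1, hZ1, hj1⟩ := hC2 Ω T i₁ i₂ i₅ i₃ i₄ P X hCh.toBase β vol hSF m k
  obtain ⟨hSkn, hW2, hg2, hZ2, hj2⟩ := hC2 Ω T i₁ i₂ i₅ i₃ i₄ P X hCh.toBase β vol hSF k n
  have hgne : ∀ (a b : ℕ) (y : T) (ω : Ω), a ≤ b → y ∈ Q →
      gh P X β a b y ω ≠ 0 ∧ gh P X β a b y ω ≠ ∞ := by
    intro a b y ω hab hy
    have hp := hPh [(β, y)] a b (by simpa using hy) hab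
    unfold gh
    refine ⟨?_, ?_⟩
    · exact ENNReal.div_ne_zero.2 ⟨W_ne_zero _ _ _ _ _, hp.2⟩
    · exact ENNReal.div_ne_top (W_ne_top _ _ _ _ _) hp.1
  have hLQ : ∀ a ∈ L, a.2 ∈ Q := hAdm.pt
  have hsmk : s m ≤ s k := hCh.mono hmk
  have hexp : Real.exp (-(s k)) ≤ Real.exp (-(s m)) := Real.exp_le_exp.2 (by linarith)
  -- the bound for the first factor
  have hfirst : ∀ y ∈ B, ∫⁻ ω, W X L m k ω * gh P X β m k x ω ^ (1 + u) *
      gh P X β m k y ω ^ r ∂P ≤
        ex (C1 + β ^ 2 / 2 * ((1 + u + r) ^ 2 - (1 + u + r)) * (s k - s m)) * Ph P X L m k := by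
    intro y hy
    refine (h1 L m k x y (1 + u) r hmk ?_ hxQ (hBQ hy) ?_ ?_ (hBR y hy) hFx ?_).2
    · exact ⟨hAdm.len, fun a ha => (hAdm.wt a ha).trans (le_max_left _ _), hAdm.pt⟩
    · exact (le_max_left _ _).trans (le_max_right _ _)
    · exact (le_max_right _ _).trans (le_max_right _ _)
    · intro a ha y' hy'
      have : y' = y := by simpa using hy'
      subst this
      exact hFB a ha _ hy
  -- the bound for the second factor
  have hsecond : ∫⁻ ω, W X L k n ω * gh P X β k n x ω * Z P X β vol k n B ω ^ r ∂P ≤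
      ex (C2 + C3 - d * r * s k) * Ph P X L k n := by
    have hp := hPh [(β, x)] k n (by simpa using hxQ) hkn
    have e1 : ∀ ω, W X L k n ω * gh P X β k n x ω * Z P X β vol k n B ω ^ r =
        (Ph P X [(β, x)] k n)⁻¹ * (W X ((β, x) :: L) k n ω * Z P X β vol k n B ω ^ r) := by
      intro ω
      rw [W_cons]
      unfold gh
      rw [ENNReal.div_eq_inv_mul]
      ring
    simp_rw [e1]
    rw [lintegral_const_mul' _ _ (ENNReal.inv_ne_top.2 hp.1)]
    have hA2 : Adm Q (N + 1) (max Λ |β|) ((β, x) :: L) := by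
      refine ⟨?_, ?_, ?_⟩
      · simpa using hAdm.len
      · intro a ha
        rcases List.mem_cons.1 ha with rfl | ha
        · exact le_max_right _ _
        · exact (hAdm.wt a ha).trans (le_max_left _ _)
      · intro a ha
        rcases List.mem_cons.1 ha with rfl | ha
        · exact hxQ
        · exact hAdm.pt a ha
    have hF2 : k = n ∨ Far c (s k) ((β, x) :: L) B := by
      rcases hfar with h | h
      · exact Or.inl h
      · refine Or.inr ?_
        intro a ha y hy
        rcases List.mem_cons.1 ha with rfl | ha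
        · exact h y hy
        · exact (mul_le_mul_of_nonneg_left hexp hc.le).trans (hFB a ha y hy)
    have hb := h2 ((β, x) :: L) k n B z hkn hA2 hBm hBQ hBz hF2
    have hF3 : k = n ∨ Far c (s k) L {x} := by
      refine Or.inr ?_
      intro a ha y hy
      exact (mul_le_mul_of_nonneg_left hexp hc.le).trans (hFx a ha y hy)
    have hb3 := (h3 L k n x hkn hAdm hxQ hF3).2
    calc (Ph P X [(β, x)] k n)⁻¹ * ∫⁻ ω, W X ((β, x) :: L) k n ω * Z P X β vol k n B ω ^ r ∂P
        ≤ (Ph P X [(β, x)] k n)⁻¹ * (ex (C2 - d * r * s k) * (ex C3 *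
          (Ph P X [(β, x)] k n * Ph P X L k n))) := by
          gcongr
          exact hb.trans (by gcongr)
      _ = ((Ph P X [(β, x)] k n)⁻¹ * Ph P X [(β, x)] k n) *
          (ex (C2 - d * r * s k) * ex C3 * Ph P X L k n) := by ring
      _ = ex (C2 + C3 - d * r * s k) * Ph P X L k n := by
          rw [ENNReal.inv_mul_cancel hp.1 hp.2, one_mul, ← ex_add]
          congr 2
          ring
  -- Hölder for the mass
  have hmass : ∀ ω, Z P X β vol m n B ω ^ r ≤ Z P X β vol k n B ω ^ (r - 1) *
      ∫⁻ y in B, gh P X β k n y ω * gh P X β m k y ω ^ r ∂vol := by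
    intro ω
    have hm1 : Measurable fun y => gh P X β m k y ω := sec (gh P X β m k) hj1 ω
    have hm2 : Measurable fun y => gh P X β k n y ω := sec (gh P X β k n) hj2 ω
    have h := hA T i₃ (vol.restrict B) (fun y => gh P X β k n y ω) (fun y => gh P X β m k y ω)
      hm2.aemeasurable hm1.aemeasurable r hr
    have e : Z P X β vol m n B ω = ∫⁻ y in B, gh P X β k n y ω * gh P X β m k y ω ∂vol := by
      unfold Z
      refine setLIntegral_congr_fun hBm ?_
      intro y hy
      simp only
      rw [hghm β y m k n ω (hBQ hy) hmk hkn, mul_comm]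
    rw [e]
    exact h
  have hr0 : 0 ≤ r - 1 := by linarith
  have mW1 : Measurable (W X L m k) := (hW1 L).mono hSmk le_rfl
  have mW2 : Measurable (W X L k n) := (hW2 L).mono hSkn le_rfl
  have mg1 : Measurable (gh P X β m k x) := (hg1 x).mono hSmk le_rfl
  have mg2 : Measurable (gh P X β k n x) := (hg2 x).mono hSkn le_rfl
  have mZ2 : Measurable (Z P X β vol k n B) := (hZ2 B hBm).mono hSkn le_rfl
  -- the main estimate
  calc ∫⁻ ω, W X L m n ω * gh P X β m n x ω * gh P X β m k x ω ^ u * Z P X β vol m n B ω ^ r ∂P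
      ≤ ∫⁻ ω, ∫⁻ y in B, (W X L m k ω * gh P X β m k x ω ^ (1 + u) * gh P X β m k y ω ^ r) *
          (W X L k n ω * gh P X β k n x ω * gh P X β k n y ω *
            Z P X β vol k n B ω ^ (r - 1)) ∂vol ∂P := by
        refine lintegral_mono fun ω => ?_
        have hm1 : Measurable fun y => gh P X β m k y ω := sec (gh P X β m k) hj1 ω
        have hm2 : Measurable fun y => gh P X β k n y ω := sec (gh P X β k n) hj2 ω
        have hg := hgne m k x ω hmk hxQ
        calc W X L m n ω * gh P X β m n x ω * gh P X β m k x ω ^ u * Z P X β vol m n B ω ^ r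
            ≤ W X L m n ω * gh P X β m n x ω * gh P X β m k x ω ^ u *
              (Z P X β vol k n B ω ^ (r - 1) *
                ∫⁻ y in B, gh P X β k n y ω * gh P X β m k y ω ^ r ∂vol) := by
              gcongr
              exact hmass ω
          _ = (W X L m k ω * W X L k n ω * (gh P X β m k x ω * gh P X β k n x ω) *
                gh P X β m k x ω ^ u * Z P X β vol k n B ω ^ (r - 1)) *
                ∫⁻ y in B, gh P X β k n y ω * gh P X β m k y ω ^ r ∂vol := by
              rw [hWm L m k n ω hmk hkn, hghm β x m k n ω hxQ hmk hkn]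
              ring
          _ = ∫⁻ y in B, (W X L m k ω * W X L k n ω * (gh P X β m k x ω * gh P X β k n x ω) *
                gh P X β m k x ω ^ u * Z P X β vol k n B ω ^ (r - 1)) *
                (gh P X β k n y ω * gh P X β m k y ω ^ r) ∂vol := by
              have hm3 : Measurable fun y => gh P X β k n y ω * gh P X β m k y ω ^ r :=
                hm2.mul (hm1.pow_const r)
              exact (lintegral_const_mul _ hm3).symm
          _ ≤ _ := by
              refine le_of_eq (lintegral_congr fun y => ?_)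
              rw [ENNReal.rpow_add _ _ hg.1 hg.2, ENNReal.rpow_one]
              ring
    _ = ∫⁻ y in B, ∫⁻ ω, (W X L m k ω * gh P X β m k x ω ^ (1 + u) * gh P X β m k y ω ^ r) *
          (W X L k n ω * gh P X β k n x ω * gh P X β k n y ω *
            Z P X β vol k n B ω ^ (r - 1)) ∂P ∂vol := by
        refine lintegral_lintegral_swap ?_
        refine Measurable.aemeasurable ?_
        have q1 : Measurable fun p : Ω × T => gh P X β m k p.2 p.1 :=
          swp (gh P X β m k) hj1
        have q2 : Measurable fun p : Ω × T => gh P X β k n p.2 p.1 :=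
          swp (gh P X β k n) hj2
        have e1 : Measurable fun p : Ω × T => W X L m k p.1 := cfst _ mW1
        have e2 : Measurable fun p : Ω × T => W X L k n p.1 := cfst _ mW2
        have e3 : Measurable fun p : Ω × T => gh P X β m k x p.1 ^ (1 + u) :=
          cfst (fun ω => gh P X β m k x ω ^ (1 + u)) (mg1.pow_const _)
        have e4 : Measurable fun p : Ω × T => gh P X β k n x p.1 :=
          cfst (gh P X β k n x) mg2
        have e5 : Measurable fun p : Ω × T => Z P X β vol k n B p.1 ^ (r - 1) :=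
          cfst (fun ω => Z P X β vol k n B ω ^ (r - 1)) (mZ2.pow_const _)
        exact ((e1.mul e3).mul (q1.pow_const r)).mul (((e2.mul e4).mul q2).mul e5)
    _ = ∫⁻ y in B, (∫⁻ ω, W X L m k ω * gh P X β m k x ω ^ (1 + u) *
          gh P X β m k y ω ^ r ∂P) *
          (∫⁻ ω, W X L k n ω * gh P X β k n x ω * gh P X β k n y ω *
            Z P X β vol k n B ω ^ (r - 1) ∂P) ∂vol := by
        refine lintegral_congr fun y => ?_
        exact hC1 Ω T i₁ i₂ P X hCh.toBase m k n
          (fun ω => W X L m k ω * gh P X β m k x ω ^ (1 + u) * gh P X β m k y ω ^ r)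
          (fun ω => W X L k n ω * gh P X β k n x ω * gh P X β k n y ω *
            Z P X β vol k n B ω ^ (r - 1))
          ((Measurable.mul (hW1 L) ((hg1 x).pow_const _)).mul ((hg1 y).pow_const _))
          ((Measurable.mul (Measurable.mul (hW2 L) (hg2 x)) (hg2 y)).mul
            ((hZ2 B hBm).pow_const _))
    _ ≤ ∫⁻ y in B, (ex (C1 + β ^ 2 / 2 * ((1 + u + r) ^ 2 - (1 + u + r)) * (s k - s m)) *
          Ph P X L m k) * (∫⁻ ω, W X L k n ω * gh P X β k n x ω * gh P X β k n y ω *
            Z P X β vol k n B ω ^ (r - 1) ∂P) ∂vol := by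
        refine setLIntegral_mono' hBm fun y hy => ?_
        gcongr
        exact hfirst y hy
    _ = (ex (C1 + β ^ 2 / 2 * ((1 + u + r) ^ 2 - (1 + u + r)) * (s k - s m)) *
          Ph P X L m k) * ∫⁻ y in B, (∫⁻ ω, W X L k n ω * gh P X β k n x ω *
            gh P X β k n y ω * Z P X β vol k n B ω ^ (r - 1) ∂P) ∂vol := by
        rw [lintegral_const_mul']
        refine ENNReal.mul_ne_top ENNReal.ofReal_ne_top (hPh L m k hLQ hmk).2
    _ = (ex (C1 + β ^ 2 / 2 * ((1 + u + r) ^ 2 - (1 + u + r)) * (s k - s m)) *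
          Ph P X L m k) * ∫⁻ ω, W X L k n ω * gh P X β k n x ω *
            Z P X β vol k n B ω ^ r ∂P := by
        congr 1
        rw [← lintegral_lintegral_swap]
        · refine lintegral_congr fun ω => ?_
          have hm2 : Measurable fun y => gh P X β k n y ω := sec (gh P X β k n) hj2 ω
          have e : ∀ y, W X L k n ω * gh P X β k n x ω * gh P X β k n y ω *
              Z P X β vol k n B ω ^ (r - 1) = (W X L k n ω * gh P X β k n x ω *
              Z P X β vol k n B ω ^ (r - 1)) * gh P X β k n y ω := fun y => by ring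
          simp_rw [e]
          rw [lintegral_const_mul _ hm2]
          change _ * Z P X β vol k n B ω = _
          rw [mul_assoc]
          congr 1
          calc Z P X β vol k n B ω ^ (r - 1) * Z P X β vol k n B ω
              = Z P X β vol k n B ω ^ (r - 1) * Z P X β vol k n B ω ^ (1 : ℝ) := by
                rw [ENNReal.rpow_one]
            _ = Z P X β vol k n B ω ^ (r - 1 + 1) := by
                rw [ENNReal.rpow_add_of_nonneg _ _ hr0 zero_le_one]
            _ = Z P X β vol k n B ω ^ r := by rw [sub_add_cancel]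
        · refine Measurable.aemeasurable ?_
          have q2 : Measurable fun p : Ω × T => gh P X β k n p.2 p.1 :=
          swp (gh P X β k n) hj2
          have e2 : Measurable fun p : Ω × T => W X L k n p.1 := cfst _ mW2
          have e4 : Measurable fun p : Ω × T => gh P X β k n x p.1 :=
          cfst (gh P X β k n x) mg2
          have e5 : Measurable fun p : Ω × T => Z P X β vol k n B p.1 ^ (r - 1) :=
            cfst (fun ω => Z P X β vol k n B ω ^ (r - 1)) (mZ2.pow_const _)
          exact ((e2.mul e4).mul q2).mul e5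
    _ ≤ (ex (C1 + β ^ 2 / 2 * ((1 + u + r) ^ 2 - (1 + u + r)) * (s k - s m)) *
          Ph P X L m k) * (ex (C2 + C3 - d * r * s k) * Ph P X L k n) := by
        gcongr
    _ = ex (C1 + C2 + C3 + β ^ 2 / 2 * ((1 + u + r) ^ 2 - (1 + u + r)) * (s k - s m) -
          d * r * s k) * Ph P X L m n := by
        rw [hPhm L m k n hmk hkn]
        have e : ex (C1 + C2 + C3 + β ^ 2 / 2 * ((1 + u + r) ^ 2 - (1 + u + r)) * (s k - s m) -
            d * r * s k) =
            ex (C1 + β ^ 2 / 2 * ((1 + u + r) ^ 2 - (1 + u + r)) * (s k - s m)) *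
            ex (C2 + C3 - d * r * s k) := by
          rw [← ex_add]
          congr 1
          ring
        rw [e]
        ring

end

end Pool.Agent.H629.GC.P.E2
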