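-- part F1 of the GC project, proved by helper747
import Pool.Agent.H629.GC.Stm

/-! GC-F1 for helper629: the lower bound for one piece. -/

set_option autoImplicit false

open MeasureTheory
open scoped ENNReal

namespace Pool.Agent.H629.GC.P.F1

open Pool.Agent.H629.GC

/-! ### Constants -/

theorem ex_add (a b : ℝ) : ex (a + b) = ex a * ex b := by
  rw [ex, ex, ex, Real.exp_add, ENNReal.ofReal_mul (Real.exp_pos a).le]

theorem ex_zero : ex 0 = 1 := by
  rw [ex, Real.exp_zero, ENNReal.ofReal_one]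

theorem ex_ne_top (a : ℝ) : ex a ≠ ∞ := ENNReal.ofReal_ne_top

theorem ex_ne_zero (a : ℝ) : ex a ≠ 0 := (ENNReal.ofReal_pos.2 (Real.exp_pos a)).ne'

theorem ex_rpow (a r : ℝ) : ex a ^ r = ex (a * r) := by
  rw [ex, ex, ENNReal.ofReal_rpow_of_pos (Real.exp_pos a), Real.exp_mul]

theorem ex_mono {a b : ℝ} (h : a ≤ b) : ex a ≤ ex b :=
  ENNReal.ofReal_le_ofReal (Real.exp_le_exp.2 h)

theorem ex_move {a b : ℝ} {J : ℝ≥0∞} (h : ex a ≤ ex b * J) : ex (a - b) ≤ J := by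
  have h1 : ex (a - b) = ex (-b) * ex a := by
    rw [← ex_add]
    congr 1
    ring
  have h2 : ex (-b) * (ex b * J) = J := by
    rw [← mul_assoc, ← ex_add, neg_add_cancel, ex_zero, one_mul]
  rw [h1]
  calc ex (-b) * ex a ≤ ex (-b) * (ex b * J) := mul_le_mul_right h _
    _ = J := h2

/-! ### The empty list -/

section nil
variable {Ω T : Type}

theorem W_nil (X : ℕ → T → Ω → ℝ) (m n : ℕ) (ω : Ω) : W X [] m n ω = 1 := by
  simp [W, ev]

theorem Ph_nil [MeasurableSpace Ω] (P : Measure Ω) [IsProbabilityMeasure P] (X : ℕ → T → Ω → ℝ) (m n : ℕ) :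
    Ph P X [] m n = 1 := by
  simp [Ph, W_nil]

theorem W_ne_zero (X : ℕ → T → Ω → ℝ) (L : List (ℝ × T)) (m n : ℕ) (ω : Ω) : W X L m n ω ≠ 0 :=
  (ENNReal.ofReal_pos.2 (Real.exp_pos _)).ne'

theorem W_ne_top (X : ℕ → T → Ω → ℝ) (L : List (ℝ × T)) (m n : ℕ) (ω : Ω) : W X L m n ω ≠ ∞ :=
  ENNReal.ofReal_ne_top

theorem adm_nil (Q : Set T) (N : ℕ) (Λ : ℝ) : Adm Q N Λ ([] : List (ℝ × T)) :=
  ⟨Nat.zero_le _, fun _ ha => absurd ha List.not_mem_nil, fun _ ha => absurd ha List.not_mem_nil⟩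

theorem far_nil [MetricSpace T] (c t : ℝ) (A : Set T) : Far c t ([] : List (ℝ × T)) A :=
  fun _ ha => absurd ha List.not_mem_nil

end nil

/-! ### The main estimates -/

section main
variable {Ω T : Type} [MeasurableSpace Ω] [MetricSpace T] [SecondCountableTopology T]
  [MeasurableSpace T] [BorelSpace T]

/-- the integral of `G` and the integral of `G * Y` -/
theorem basic (hC1 : S_C1) (hC2 : S_C2) (hC3 : S_C3) (hD1 : S_D1) (hD2 : S_D2)
    (P : Measure Ω) (X : ℕ → T → Ω → ℝ) (Q : Set T) (s : ℕ → ℝ) (vol : Measure T) (β d : ℝ)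
    (hCh : Chaos P X Q s) [SFinite vol] (q : ℝ) (hq : 0 < q) (c C₀ : ℝ) (hc : 0 < c) :
    ∃ C : ℝ, ∀ (k n : ℕ) (B : Set T) (x : T), k ≤ n → MeasurableSet B →
      B ⊆ Q → x ∈ Q → B ⊆ Metric.closedBall x (Real.exp (-(s k))) →
      (∀ y ∈ B, c * Real.exp (-(s k)) ≤ dist x y) → ex (-C₀ - d * s k) ≤ vol B →
      ∃ G Y : Ω → ℝ≥0∞, Measurable G ∧ Measurable Y ∧
        (∀ r : ℝ, 0 < r → ∀ ω, G ω * Y ω ^ r = gh P X β 0 n x ω * gh P X β 0 k x ω ^ (q - r) *
          Z P X β vol 0 n B ω ^ r) ∧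
        ∫⁻ ω, G ω ∂P ≤ ex (C + β ^ 2 / 2 * ((1 + q) ^ 2 - (1 + q)) * s k) ∧
        ex (-C + β ^ 2 / 2 * ((1 + q) ^ 2 - (1 + q)) * s k - d * s k) ≤ ∫⁻ ω, G ω * Y ω ∂P := by
  have hprob : IsProbabilityMeasure P := hCh.prob
  obtain ⟨C1, hC1'⟩ := hD1 Ω T _ _ P X Q s hCh β 0 (1 + q) c 1 hc
  obtain ⟨C2, hC2'⟩ := hD2 Ω T _ _ P X Q s hCh β 0 (1 + q) c hc
  have hPh := (hC3 Ω T _ _ inferInstance _ inferInstance P X Q s hCh).1
  have hgm := (hC3 Ω T _ _ inferInstance _ inferInstance P X Q s hCh).2.2.2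
  refine ⟨|C1| + |C2| + |C₀|, ?_⟩
  intro k n B x hkn hB hBQ hx hBx hBf hBv
  have hPx : ∀ m n : ℕ, m ≤ n → ∀ y ∈ Q, Ph P X [(β, y)] m n ≠ 0 ∧ Ph P X [(β, y)] m n ≠ ∞ := by
    intro m n hmn y hy
    refine hPh _ m n ?_ hmn
    intro a ha
    rw [List.mem_singleton] at ha
    rw [ha]
    exact hy
  obtain ⟨hle1, -, hg1m, -, hg1j⟩ := hC2 Ω T _ _ inferInstance _ inferInstance P X hCh.toBase β vol
    inferInstance 0 k
  obtain ⟨hle2, -, hg2m, -, hg2j⟩ := hC2 Ω T _ _ inferInstance _ inferInstance P X hCh.toBase β vol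
    inferInstance k n
  obtain ⟨hle3, -, hg3m, hZm, hg3j⟩ := hC2 Ω T _ _ inferInstance _ inferInstance P X hCh.toBase β vol
    inferInstance 0 n
  have g1 : ∀ y, Measurable (gh P X β 0 k y) := fun y => (hg1m y).mono hle1 le_rfl
  have g2 : ∀ y, Measurable (gh P X β k n y) := fun y => (hg2m y).mono hle2 le_rfl
  have g3 : ∀ y, Measurable (gh P X β 0 n y) := fun y => (hg3m y).mono hle3 le_rfl
  have hZ : Measurable (Z P X β vol 0 n B) := (hZm B hB).mono hle3 le_rfl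
  have hg0 : ∀ ω, gh P X β 0 k x ω ≠ 0 := fun ω =>
    ENNReal.div_ne_zero.2 ⟨W_ne_zero _ _ _ _ _, (hPx 0 k (Nat.zero_le k) x hx).2⟩
  have hgt : ∀ ω, gh P X β 0 k x ω ≠ ∞ := fun ω =>
    ENNReal.div_ne_top (W_ne_top _ _ _ _ _) (hPx 0 k (Nat.zero_le k) x hx).1
  have hs0 : s k - s 0 = s k := by rw [hCh.zero, sub_zero]
  have hdist : dist x x ≤ 1 * Real.exp (-(s k)) := by
    rw [dist_self, one_mul]
    exact (Real.exp_pos _).le
  refine ⟨fun ω => gh P X β 0 n x ω * gh P X β 0 k x ω ^ q,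
    fun ω => Z P X β vol 0 n B ω * (gh P X β 0 k x ω)⁻¹, (g3 x).mul ((g1 x).pow_const q),
    hZ.mul (g1 x).inv, ?_, ?_, ?_⟩
  · intro r hr ω
    rw [ENNReal.mul_rpow_of_nonneg _ _ hr.le, ENNReal.inv_rpow, ← ENNReal.rpow_neg,
      sub_eq_add_neg q r, ENNReal.rpow_add _ _ (hg0 ω) (hgt ω)]
    ring
  · -- the integral of `G`
    have h1 : ∀ ω, gh P X β 0 n x ω * gh P X β 0 k x ω ^ q =
        gh P X β 0 k x ω ^ (1 + q) * gh P X β k n x ω := by
      intro ω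
      rw [hgm β x 0 k n ω hx (Nat.zero_le k) hkn, ENNReal.rpow_add _ _ (hg0 ω) (hgt ω),
        ENNReal.rpow_one]
      ring
    rw [lintegral_congr h1]
    rw [hC1 Ω T _ _ P X hCh.toBase 0 k n (fun ω => gh P X β 0 k x ω ^ (1 + q)) (gh P X β k n x)
      ((hg1m x).pow_const _) (hg2m x)]
    have h2 : ∫⁻ ω, gh P X β k n x ω ∂P = 1 := by
      change ∫⁻ ω, W X [(β, x)] k n ω / Ph P X [(β, x)] k n ∂P = 1
      simp only [div_eq_mul_inv]
      rw [lintegral_mul_const' _ _ (ENNReal.inv_ne_top.2 (hPx k n hkn x hx).1)]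
      exact ENNReal.mul_inv_cancel (hPx k n hkn x hx).1 (hPx k n hkn x hx).2
    rw [h2, mul_one]
    have h3 := (hC1' [] 0 k x x (1 + q) 0 (Nat.zero_le k) (adm_nil _ _ _) hx hx
      (by rw [abs_of_pos (by linarith)]) (by rw [abs_zero]; linarith) hdist (far_nil _ _ _)
      (far_nil _ _ _)).2
    simp only [W_nil, one_mul, ENNReal.rpow_zero, mul_one, Ph_nil, add_zero, hs0] at h3
    refine h3.trans (ex_mono ?_)
    have := le_abs_self C1
    have := abs_nonneg C2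
    have := abs_nonneg C₀
    linarith
  · -- the integral of `G * Y`
    have h1 : ∀ ω, gh P X β 0 n x ω * gh P X β 0 k x ω ^ q *
        (Z P X β vol 0 n B ω * (gh P X β 0 k x ω)⁻¹) =
        ∫⁻ y in B, (gh P X β 0 k x ω ^ q * gh P X β 0 k y ω) *
          (gh P X β k n x ω * gh P X β k n y ω) ∂vol := by
      intro ω
      have h2 : Z P X β vol 0 n B ω = ∫⁻ y in B, gh P X β 0 k y ω * gh P X β k n y ω ∂vol := by
        change ∫⁻ y in B, gh P X β 0 n y ω ∂vol = _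
        exact setLIntegral_congr_fun hB fun y hy =>
          hgm β y 0 k n ω (hBQ hy) (Nat.zero_le k) hkn
      have hmω : Measurable fun y : T => ((y, ω) : T × Ω) := measurable_prodMk_right
      have hm1 : Measurable ((fun z : T × Ω => gh P X β 0 k z.1 z.2) ∘ fun y : T => ((y, ω) : T × Ω)) :=
        hg1j.comp hmω
      have hm2 : Measurable ((fun z : T × Ω => gh P X β k n z.1 z.2) ∘ fun y : T => ((y, ω) : T × Ω)) :=
        hg2j.comp hmω
      have hm3 : Measurable fun y => gh P X β 0 k y ω * gh P X β k n y ω := hm1.mul hm2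
      have h3 : ∀ y, (gh P X β 0 k x ω ^ q * gh P X β 0 k y ω) *
          (gh P X β k n x ω * gh P X β k n y ω) = (gh P X β 0 k x ω ^ q * gh P X β k n x ω) *
          (gh P X β 0 k y ω * gh P X β k n y ω) := by
        intro y
        ring
      simp only [h3]
      rw [lintegral_const_mul _ hm3, ← h2, hgm β x 0 k n ω hx (Nat.zero_le k) hkn]
      have h4 : gh P X β 0 k x ω * (gh P X β 0 k x ω)⁻¹ = 1 := ENNReal.mul_inv_cancel (hg0 ω) (hgt ω)
      calc gh P X β 0 k x ω * gh P X β k n x ω * gh P X β 0 k x ω ^ q *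
          (Z P X β vol 0 n B ω * (gh P X β 0 k x ω)⁻¹)
          = gh P X β 0 k x ω ^ q * gh P X β k n x ω * Z P X β vol 0 n B ω *
            (gh P X β 0 k x ω * (gh P X β 0 k x ω)⁻¹) := by ring
        _ = gh P X β 0 k x ω ^ q * gh P X β k n x ω * Z P X β vol 0 n B ω := by rw [h4, mul_one]
    rw [lintegral_congr h1]
    rw [lintegral_lintegral_swap]
    · have h5 : ∀ y, ∫⁻ ω, (gh P X β 0 k x ω ^ q * gh P X β 0 k y ω) *
          (gh P X β k n x ω * gh P X β k n y ω) ∂P =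
          (∫⁻ ω, gh P X β 0 k x ω ^ q * gh P X β 0 k y ω ∂P) *
            ∫⁻ ω, gh P X β k n x ω * gh P X β k n y ω ∂P := by
        intro y
        exact hC1 Ω T _ _ P X hCh.toBase 0 k n (fun ω => gh P X β 0 k x ω ^ q * gh P X β 0 k y ω)
          (fun ω => gh P X β k n x ω * gh P X β k n y ω)
          (((hg1m x).pow_const _).mul (hg1m y)) ((hg2m x).mul (hg2m y))
      simp only [h5]
      have h6 : ∀ y ∈ B, ex (-C1 + β ^ 2 / 2 * ((q + 1) ^ 2 - (q + 1)) * s k) * ex (-C2) ≤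
          (∫⁻ ω, gh P X β 0 k x ω ^ q * gh P X β 0 k y ω ∂P) *
            ∫⁻ ω, gh P X β k n x ω * gh P X β k n y ω ∂P := by
        intro y hy
        have h7 := (hC1' [] 0 k x y q 1 (Nat.zero_le k) (adm_nil _ _ _) hx (hBQ hy)
          (by rw [abs_of_pos hq]; linarith) (by rw [abs_one]; linarith)
          (by rw [one_mul, dist_comm]; exact hBx hy) (far_nil _ _ _) (far_nil _ _ _)).1
        have h8 := (hC2' [] k n x y hkn (adm_nil _ _ _) hx (hBQ hy)
          (Or.inr ⟨hBf y hy, far_nil _ _ _, far_nil _ _ _⟩)).1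
        simp only [W_nil, one_mul, mul_one, Ph_nil, ENNReal.rpow_one, hs0] at h7 h8
        exact mul_le_mul' h7 h8
      calc ex (-(|C1| + |C2| + |C₀|) + β ^ 2 / 2 * ((1 + q) ^ 2 - (1 + q)) * s k - d * s k)
          ≤ ex (-C1 + β ^ 2 / 2 * ((q + 1) ^ 2 - (q + 1)) * s k) * ex (-C2) *
            ex (-C₀ - d * s k) := by
              rw [← ex_add, ← ex_add]
              apply ex_mono
              have e1 := le_abs_self C1
              have e2 := le_abs_self C2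
              have e3 := le_abs_self C₀
              have e4 : (1 + q) = (q + 1) := add_comm _ _
              rw [e4]
              linarith
        _ ≤ ex (-C1 + β ^ 2 / 2 * ((q + 1) ^ 2 - (q + 1)) * s k) * ex (-C2) * vol B :=
            mul_le_mul_right hBv _
        _ = ∫⁻ _ in B, ex (-C1 + β ^ 2 / 2 * ((q + 1) ^ 2 - (q + 1)) * s k) * ex (-C2) ∂vol := by
            rw [setLIntegral_const]
        _ ≤ _ := setLIntegral_mono' hB h6
    · refine Measurable.aemeasurable ?_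
      have hsw : Measurable (Prod.swap : Ω × T → T × Ω) := measurable_swap
      have hfst : Measurable (Prod.fst : Ω × T → Ω) := measurable_fst
      have e1 : Measurable ((fun z : T × Ω => gh P X β 0 k z.1 z.2) ∘ (Prod.swap : Ω × T → T × Ω)) :=
        hg1j.comp hsw
      have e2 : Measurable ((fun z : T × Ω => gh P X β k n z.1 z.2) ∘ (Prod.swap : Ω × T → T × Ω)) :=
        hg2j.comp hsw
      have e3 : Measurable (gh P X β 0 k x ∘ (Prod.fst : Ω × T → Ω)) := (g1 x).comp hfst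
      have e4 : Measurable (gh P X β k n x ∘ (Prod.fst : Ω × T → Ω)) := (g2 x).comp hfst
      exact ((e3.pow_const q).mul e1).mul (e4.mul e2)

end main

theorem t_F1 : S_A1b → S_A3 → S_C1 → S_C2 → S_C3 → S_D1 → S_D2 → S_D3 → S_E2 → S_F1 := by
  intro hA1b hA3 hC1 hC2 hC3 hD1 hD2 _ hE2 Ω T i₁ i₂ i₂' i₃ i₃' P X Q s vol β d hCh hQ hsf hreg hd
    q hq hβ hclaim c C₀ hc
  have hprob : IsProbabilityMeasure P := hCh.prob
  obtain ⟨C, hC⟩ := basic hC1 hC2 hC3 hD1 hD2 P X Q s vol β d hCh q hq c C₀ hc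
  have hqq : ∀ (n k : ℕ) (B : Set T) (x : T) (ω : Ω), gh P X β 0 n x ω * gh P X β 0 k x ω ^ (q - q) *
      Z P X β vol 0 n B ω ^ q = gh P X β 0 n x ω * Z P X β vol 0 n B ω ^ q := by
    intro n k B x ω
    rw [sub_self, ENNReal.rpow_zero, mul_one]
  rcases le_or_gt 1 q with h1 | h1
  · -- `1 ≤ q`
    refine ⟨C * q + C * (q - 1), ?_⟩
    intro k n B x hkn hB hBQ hx hBx hBf hBv
    obtain ⟨G, Y, hG, hY, hGY, hI1, hI2⟩ := hC k n B x hkn hB hBQ hx hBx hBf hBv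
    have h2 := hA1b Ω _ P G Y hG.aemeasurable hY.aemeasurable q h1
    have h3 : ∫⁻ ω, G ω * Y ω ^ q ∂P = ∫⁻ ω, gh P X β 0 n x ω * Z P X β vol 0 n B ω ^ q ∂P :=
      lintegral_congr fun ω => by rw [hGY q hq ω, hqq]
    rw [h3] at h2
    have h4 : ex ((-C + β ^ 2 / 2 * ((1 + q) ^ 2 - (1 + q)) * s k - d * s k) * q) ≤
        ex ((C + β ^ 2 / 2 * ((1 + q) ^ 2 - (1 + q)) * s k) * (q - 1)) *
          ∫⁻ ω, gh P X β 0 n x ω * Z P X β vol 0 n B ω ^ q ∂P := by
      rw [← ex_rpow, ← ex_rpow]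
      calc _ ≤ (∫⁻ ω, G ω * Y ω ∂P) ^ q := ENNReal.rpow_le_rpow hI2 hq.le
        _ ≤ _ := h2
        _ ≤ _ := mul_le_mul_left (ENNReal.rpow_le_rpow hI1 (by linarith)) _
    refine le_trans (ex_mono (le_of_eq ?_)) (ex_move h4)
    ring
  · -- `q < 1`
    obtain ⟨r, hr1, hr2⟩ : ∃ r : ℝ, 1 < r ∧ β ^ 2 / 2 * r < d := by
      rcases eq_or_lt_of_le (show 0 ≤ β ^ 2 / 2 by positivity) with h0 | h0
      · exact ⟨2, by norm_num, by rw [← h0, zero_mul]; exact hd⟩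
      · have h2 : 1 < d / (β ^ 2 / 2) := by rwa [one_lt_div h0]
        obtain ⟨r, hr1, hr2⟩ := exists_between h2
        refine ⟨r, hr1, ?_⟩
        rw [lt_div_iff₀ h0] at hr2
        linarith
    obtain ⟨C3, hC3'⟩ := hE2 Ω T i₁ i₂ i₂' i₃ i₃' P X Q s vol β d hCh hQ hsf hreg hd r (q - r)
      hr1.le (hclaim r (by linarith) hr2) 0 0 c 1 hc
    have hrq : 0 < r - q := by linarith
    set θ := (r - 1) / (r - q) with hθ
    have hθ0 : 0 < θ := div_pos (by linarith) hrq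
    have hθ1 : (1 - q) / (r - q) = 1 - θ := by
      rw [hθ, eq_sub_iff_add_eq, ← add_div, div_eq_one_iff_eq hrq.ne']
      ring
    have hθ1' : 0 ≤ 1 - θ := by
      rw [← hθ1]
      exact div_nonneg (by linarith) hrq.le
    have hθr : 1 - (1 - θ) * r = θ * q := by
      rw [← hθ1, hθ]
      field_simp
      ring
    refine ⟨(C + C3 * (1 - θ)) / θ, ?_⟩
    intro k n B x hkn hB hBQ hx hBx hBf hBv
    obtain ⟨G, Y, hG, hY, hGY, -, hI2⟩ := hC k n B x hkn hB hBQ hx hBx hBf hBv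
    have h2 := hA3 Ω _ P G Y hG.aemeasurable hY.aemeasurable q r hq h1 hr1
    rw [hθ1, ← hθ] at h2
    have h3 : ∫⁻ ω, G ω * Y ω ^ q ∂P = ∫⁻ ω, gh P X β 0 n x ω * Z P X β vol 0 n B ω ^ q ∂P :=
      lintegral_congr fun ω => by rw [hGY q hq ω, hqq]
    have h4 : ∫⁻ ω, G ω * Y ω ^ r ∂P ≤
        ex (C3 + β ^ 2 / 2 * ((1 + q) ^ 2 - (1 + q)) * s k - d * r * s k) := by
      have h5 := hC3' [] 0 k n B x x (Nat.zero_le k) hkn (adm_nil _ _ _) hB hBQ hx hBx
        (fun y hy => by rw [one_mul, dist_comm]; exact hBx hy) (Or.inr hBf) (far_nil _ _ _)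
        (far_nil _ _ _)
      simp only [W_nil, one_mul, Ph_nil, mul_one, hCh.zero, sub_zero] at h5
      rw [lintegral_congr (hGY r (by linarith))]
      refine h5.trans (ex_mono (le_of_eq ?_))
      ring
    rw [h3] at h2
    have h6 : ex (-C + β ^ 2 / 2 * ((1 + q) ^ 2 - (1 + q)) * s k - d * s k) ≤
        ex ((C3 + β ^ 2 / 2 * ((1 + q) ^ 2 - (1 + q)) * s k - d * r * s k) * (1 - θ)) *
          (∫⁻ ω, gh P X β 0 n x ω * Z P X β vol 0 n B ω ^ q ∂P) ^ θ := by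
      rw [← ex_rpow]
      calc _ ≤ ∫⁻ ω, G ω * Y ω ∂P := hI2
        _ ≤ _ := h2
        _ ≤ _ := mul_le_mul_right (ENNReal.rpow_le_rpow h4 hθ1') _
        _ = _ := mul_comm _ _
    have h7 := ENNReal.rpow_le_rpow (ex_move h6) (inv_nonneg.2 hθ0.le)
    rw [← ENNReal.rpow_mul, mul_inv_cancel₀ hθ0.ne', ENNReal.rpow_one, ex_rpow] at h7
    refine le_trans (ex_mono (le_of_eq ?_)) h7
    have h8 : (-C + β ^ 2 / 2 * ((1 + q) ^ 2 - (1 + q)) * s k - d * s k -
        (C3 + β ^ 2 / 2 * ((1 + q) ^ 2 - (1 + q)) * s k - d * r * s k) * (1 - θ)) =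
        -(C + C3 * (1 - θ)) + θ * (β ^ 2 / 2 * ((1 + q) ^ 2 - (1 + q)) * s k) -
          d * s k * (1 - (1 - θ) * r) := by ring
    rw [h8, hθr]
    field_simp

end Pool.Agent.H629.GC.P.F1
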