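-- part G2 of the GC project, proved by helper671
import Pool.Agent.H629.GC.Stm

/-!
# Project GC (helper629), task G2: existence of the almost sure limit
-/

set_option autoImplicit false

open MeasureTheory ProbabilityTheory Set Filter
open scoped ENNReal NNReal Topology

namespace Pool.Agent.H629.GC.P.G2

open Pool.Agent.H629.GC

theorem W_zero {Ω T : Type} [MeasurableSpace Ω] (X : ℕ → T → Ω → ℝ) (β : ℝ) (x : T) (ω : Ω) :
    W X [(β, x)] 0 0 ω = 1 := by
  unfold W ev S
  simp

theorem gh_zero {Ω T : Type} [MeasurableSpace Ω] (P : Measure Ω) [IsProbabilityMeasure P]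
    (X : ℕ → T → Ω → ℝ) (β : ℝ) (x : T) (ω : Ω) : gh P X β 0 0 x ω = 1 := by
  unfold gh Ph
  simp only [W_zero]
  simp

theorem Z_zero {Ω T : Type} [MeasurableSpace Ω] [MeasurableSpace T] (P : Measure Ω)
    [IsProbabilityMeasure P] (X : ℕ → T → Ω → ℝ) (β : ℝ) (vol : Measure T) (A : Set T) (ω : Ω) :
    Z P X β vol 0 0 A ω = vol A := by
  unfold Z
  simp only [gh_zero]
  simp

/-- **G2** -/
theorem t_G2 : S_C2 → S_C4 → S_G2 := by
  intro hC2 hC4 Ω T i1 i2 i3 i4 i5 P X hX β hfin vol hvol A hA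
  haveI : IsProbabilityMeasure P := hX.prob
  have hc2 := hC2 Ω T i1 i2 i3 i4 i5 P X hX β vol inferInstance
  have hle : ∀ n, Sg X 0 n ≤ i1 := fun n => (hc2 0 n).1
  have hZm : ∀ n, Measurable[Sg X 0 n] (Z P X β vol 0 n A) := fun n => (hc2 0 n).2.2.2.1 A hA
  have hZm' : ∀ n, Measurable (Z P X β vol 0 n A) := fun n => (hZm n).mono (hle n) le_rfl
  have hc4 := hC4 Ω T i1 i2 i3 i4 i5 P X hX β hfin vol inferInstance A hA
  have hint : ∀ n, ∫⁻ ω, Z P X β vol 0 n A ω ∂P = vol A := by
    intro n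
    have h1 := hc4 0 n (Nat.zero_le n) (fun _ => 1) measurable_const
    simp only [one_mul, Z_zero] at h1
    rw [h1]
    simp
  have hvA : vol A ≠ ∞ := measure_ne_top vol A
  have hae : ∀ n, ∀ᵐ ω ∂P, Z P X β vol 0 n A ω < ∞ := by
    intro n
    exact ae_lt_top (hZm' n) (by rw [hint n]; exact hvA)
  let ℱ : Filtration ℕ i1 :=
    { seq := fun n => Sg X 0 n
      mono' := by
        intro m n hmn
        exact biSup_mono fun j hj => ⟨hj.1, hj.2.trans_le hmn⟩
      le' := hle }
  set f : ℕ → Ω → ℝ := fun n ω => (Z P X β vol 0 n A ω).toReal with hf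
  have hfm : ∀ n, Measurable[Sg X 0 n] (f n) := fun n => (hZm n).ennreal_toReal
  have hadp : StronglyAdapted ℱ f := fun n => (hfm n).stronglyMeasurable
  have hfi : ∀ n, Integrable (f n) P := fun n =>
    integrable_toReal_of_lintegral_ne_top (hZm' n).aemeasurable (by rw [hint n]; exact hvA)
  have hset : ∀ (n : ℕ) (s : Set Ω), MeasurableSet[Sg X 0 n] s →
      ∫ ω in s, f n ω ∂P = ∫ ω in s, f (n + 1) ω ∂P := by
    intro n s hs
    have hs' : MeasurableSet s := hle n s hs
    have h1 : ∀ m, ∫ ω in s, f m ω ∂P = (∫⁻ ω in s, Z P X β vol 0 m A ω ∂P).toReal := by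
      intro m
      exact integral_toReal (hZm' m).aemeasurable (ae_restrict_of_ae (hae m))
    have h2 : ∀ m, ∫⁻ ω in s, Z P X β vol 0 m A ω ∂P =
        ∫⁻ ω, s.indicator (fun _ => (1 : ℝ≥0∞)) ω * Z P X β vol 0 m A ω ∂P := by
      intro m
      rw [← lintegral_indicator hs']
      refine lintegral_congr fun ω => ?_
      by_cases hω : ω ∈ s
      · rw [indicator_of_mem hω, indicator_of_mem hω, one_mul]
      · rw [indicator_of_notMem hω, indicator_of_notMem hω, zero_mul]
    have h3 := hc4 n (n + 1) (Nat.le_succ n) (s.indicator (fun _ => (1 : ℝ≥0∞)))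
      (measurable_const.indicator hs)
    rw [h1, h1, h2, h2, h3]
  have hmart : Martingale f ℱ P := martingale_of_setIntegral_eq_succ hadp hfi hset
  have hbdd : ∀ n, eLpNorm (f n) 1 P ≤ ((vol A).toNNReal : ℝ≥0) := by
    intro n
    rw [eLpNorm_one_eq_lintegral_enorm, ENNReal.coe_toNNReal hvA, ← hint n]
    refine lintegral_mono fun ω => ?_
    simp only [hf]
    rw [Real.enorm_of_nonneg ENNReal.toReal_nonneg]
    exact ENNReal.ofReal_toReal_le
  have hlim := hmart.submartingale.ae_tendsto_limitProcess hbdd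
  refine ⟨fun ω => ENNReal.ofReal (ℱ.limitProcess f P ω), ?_, ?_, ?_⟩
  · exact (Filtration.stronglyMeasurable_limit_process'.measurable).ennreal_ofReal
  · have hall : ∀ᵐ ω ∂P, ∀ n, Z P X β vol 0 n A ω < ∞ := ae_all_iff.2 hae
    filter_upwards [hlim, hall] with ω h1 h2
    have h3 : (fun n => Z P X β vol 0 n A ω) = fun n => ENNReal.ofReal (f n ω) := by
      funext n
      simp only [hf]
      rw [ENNReal.ofReal_toReal (h2 n).ne]
    rw [h3]
    exact ENNReal.tendsto_ofReal h1
  · exact Filter.Eventually.of_forall fun ω => ENNReal.ofReal_ne_top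

end Pool.Agent.H629.GC.P.G2
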