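-- part T1 of the GC project, proved by helper602
import Pool.Agent.H629.GC.Stm2

set_option autoImplicit false

open MeasureTheory ProbabilityTheory Set Filter
open scoped ENNReal Topology

/-!
# Lower bound for the tilted probability of large masses (project GC of helper629, part T1)
-/

namespace Pool.Agent.H629.GC.P.T1

open Pool.Agent.H629.GC

theorem ex_mono {a b : ℝ} (h : a ≤ b) : ex a ≤ ex b :=
  ENNReal.ofReal_le_ofReal (Real.exp_le_exp.2 h)

theorem ex_add (a b : ℝ) : ex (a + b) = ex a * ex b := by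
  unfold ex
  rw [Real.exp_add, ENNReal.ofReal_mul (Real.exp_pos a).le]

theorem ex_zero : ex 0 = 1 := by
  unfold ex
  rw [Real.exp_zero, ENNReal.ofReal_one]

theorem ex_rpow (a r : ℝ) : ex a ^ r = ex (a * r) := by
  unfold ex
  rw [ENNReal.ofReal_rpow_of_pos (Real.exp_pos a), ← Real.exp_mul]

theorem W_nil {Ω T : Type} [MeasurableSpace Ω] (X : ℕ → T → Ω → ℝ) (m n : ℕ) (ω : Ω) :
    W X [] m n ω = 1 := by
  unfold W ev
  simp

theorem Ph_nil {Ω T : Type} [MeasurableSpace Ω] (P : Measure Ω) (hP : IsProbabilityMeasure P)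
    (X : ℕ → T → Ω → ℝ) (m n : ℕ) : Ph P X [] m n = 1 := by
  unfold Ph
  simp [W_nil]

theorem t_T1 (hA5 : S_A5) (hC2 : S_C2) (hE1 : S_E1) (hE2 : S_E2) (hF1 : S_F1)
    (hCL : Ass (fun _Ω _T _ _ _ P X Q s vol b d =>
      ∀ r : ℝ, 0 ≤ r → b ^ 2 / 2 * r < d → Claim P X Q s vol b d r)) : S_T1 := by
  intro Ω T i₁ i₂ hsc i₃ hBor P X Q s vol β d hCh hQ hsf hreg hd hβ hβd A hA hAQ c C₀ e hc he
  have hβ2 : 0 < β ^ 2 := by positivity
  -- the exponents
  obtain ⟨q, hq⟩ : ∃ q : ℝ, q = 2 * d / β ^ 2 - 1 := ⟨_, rfl⟩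
  have hqd : β ^ 2 / 2 * (1 + q) = d := by
    rw [hq]
    field_simp
    ring
  have hq0 : 0 < q := by
    by_contra h
    push Not at h
    nlinarith
  obtain ⟨h, hh⟩ : ∃ h : ℝ, h = min (q / 2) (min (1 / 2) (e / β ^ 2)) := ⟨_, rfl⟩
  have hh0 : 0 < h := by
    rw [hh]
    exact lt_min (by linarith) (lt_min (by norm_num) (by positivity))
  have hh4 : h ≤ q / 2 := by
    rw [hh]
    exact min_le_left _ _
  have hh2 : h ≤ 1 / 2 := by
    rw [hh]
    exact (min_le_right _ _).trans (min_le_left _ _)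
  have hhe : β ^ 2 * h ≤ e := by
    have h1 : h ≤ e / β ^ 2 := by
      rw [hh]
      exact (min_le_right _ _).trans (min_le_right _ _)
    rw [le_div_iff₀ hβ2] at h1
    linarith
  obtain ⟨v, hv⟩ : ∃ v : ℝ, v = β ^ 2 * q / 2 := ⟨_, rfl⟩
  have hvd : v = d - β ^ 2 / 2 := by
    rw [hv, ← hqd]
    ring
  obtain ⟨γ, hγ⟩ : ∃ γ : ℝ, γ = β ^ 2 * h ^ 2 / 2 := ⟨_, rfl⟩
  have hγe : γ < e * h := by
    have h1 : γ = (β ^ 2 * h) / 2 * h := by
      rw [hγ]
      ring
    rw [h1]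
    exact mul_lt_mul_of_pos_right (by linarith) hh0
  -- the pieces
  have hCl := hCL Ω T i₁ i₂ hsc i₃ hBor P X Q s vol β d hCh hQ hsf hreg hd
  have hPiece : ∀ r : ℝ, 0 < r → β ^ 2 / 2 * r < d → Piece P X Q s vol β d r 0 := by
    intro r hr0 hrd
    rcases lt_or_ge r 1 with hr | hr
    · exact hE1 Ω T i₁ i₂ hsc i₃ hBor P X Q s vol β d hCh hQ hsf hreg hd r 0 hr0 hr
    · exact hE2 Ω T i₁ i₂ hsc i₃ hBor P X Q s vol β d hCh hQ hsf hreg hd r 0 hr
        (hCl r hr0.le hrd)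
  have hb : ∀ r : ℝ, 0 < r → β ^ 2 / 2 * r < d → ∃ C : ℝ, ∀ (k n : ℕ) (B : Set T) (x : T),
      k ≤ n → MeasurableSet B → B ⊆ Q → x ∈ Q → B ⊆ Metric.closedBall x (Real.exp (-(s k))) →
      (∀ y ∈ B, c * Real.exp (-(s k)) ≤ dist x y) →
      ∫⁻ ω, gh P X β 0 n x ω * Z P X β vol 0 n B ω ^ r ∂P ≤
        ex (C + s k * (β ^ 2 / 2 * r * (r - q))) := by
    intro r hr0 hrd
    obtain ⟨C, hC⟩ := hPiece r hr0 hrd 0 0 c 1 hc
    refine ⟨C, fun k n B x hkn hBm hBQ hx hBx hBf => ?_⟩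
    have h1 := hC [] 0 k n B x x (Nat.zero_le _) hkn ⟨by simp, by simp, by simp⟩ hBm hBQ hx hBx
      (fun y hy => by
        have := hBx hy
        rw [Metric.mem_closedBall, dist_comm] at this
        rw [one_mul]
        exact this) (Or.inr hBf) (by intro a ha; simp at ha) (by intro a ha; simp at ha)
    rw [Ph_nil P hCh.prob, mul_one, hCh.zero] at h1
    simp only [W_nil, one_mul, ENNReal.rpow_zero, mul_one] at h1
    refine h1.trans (le_of_eq ?_)
    congr 1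
    rw [← hqd]
    ring
  obtain ⟨C1, hC1⟩ := hF1 Ω T i₁ i₂ hsc i₃ hBor P X Q s vol β d hCh hQ hsf hreg hd q hq0 hβd hCl
    c C₀ hc
  obtain ⟨C2, hC2'⟩ := hb (q + h) (by linarith) (by nlinarith)
  obtain ⟨C3, hC3⟩ := hb (q - h) (by linarith) (by nlinarith)
  obtain ⟨C, hC⟩ : ∃ C : ℝ, C = max C1 (max C2 C3) := ⟨_, rfl⟩
  have hCC1 : C1 ≤ C := by rw [hC]; exact le_max_left _ _
  have hCC2 : C2 ≤ C := by rw [hC]; exact (le_max_left _ _).trans (le_max_right _ _)
  have hCC3 : C3 ≤ C := by rw [hC]; exact (le_max_right _ _).trans (le_max_right _ _)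
  obtain ⟨C', σ', hA5'⟩ := hA5 q h v γ e C hh0 (by linarith) hγe
  refine ⟨C', σ', fun k n B x hkn hsk hx hBm hBA hBx hBf hBv => ?_⟩
  rw [← hq, ← hvd]
  obtain ⟨hle, -, hgm, hZm, -⟩ := hC2 Ω T i₁ i₂ hsc i₃ hBor P X hCh.toBase β vol hsf 0 n
  have hg : Measurable (gh P X β 0 n x) := (hgm x).mono hle le_rfl
  have hZB : Measurable (Z P X β vol 0 n B) := (hZm B hBm).mono hle le_rfl
  have hZA : Measurable (Z P X β vol 0 n A) := (hZm A hA).mono hle le_rfl
  -- the window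
  have hwin : ex (-C') ≤ ∫⁻ ω, gh P X β 0 n x ω *
      (min (Z P X β vol 0 n B ω) (ex ((v + e) * s k)) ^ q - ex ((v - e) * s k - 1) ^ q) ∂P := by
    refine hA5' Ω i₁ P (gh P X β 0 n x) (Z P X β vol 0 n B) hg hZB (s k) hsk ?_ ?_ ?_
    · refine le_trans (ex_mono ?_) (hC1 k n B x hkn hBm (hBA.trans hAQ) hx hBx hBf hBv)
      have h1 : -C1 + β ^ 2 / 2 * ((1 + q) ^ 2 - (1 + q)) * s k - d * q * s k = -C1 := by
        rw [← hqd]
        ring
      rw [h1]
      linarith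
    · refine (hC2' k n B x hkn hBm (hBA.trans hAQ) hx hBx hBf).trans (ex_mono ?_)
      have h1 : β ^ 2 / 2 * (q + h) * (q + h - q) = v * h + γ := by
        rw [hv, hγ]
        ring
      rw [h1]
      linarith
    · refine (hC3 k n B x hkn hBm (hBA.trans hAQ) hx hBx hBf).trans (ex_mono ?_)
      have h1 : β ^ 2 / 2 * (q - h) * (q - h - q) = γ - v * h := by
        rw [hv, hγ]
        ring
      rw [h1]
      linarith
  set E : Set Ω := {ω | ex ((v - e) * s k - 1) ≤ Z P X β vol 0 n A ω} with hE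
  have hEm : MeasurableSet E := measurableSet_le measurable_const hZA
  have hpt : ∀ ω, gh P X β 0 n x ω *
      (min (Z P X β vol 0 n B ω) (ex ((v + e) * s k)) ^ q - ex ((v - e) * s k - 1) ^ q) ≤
      E.indicator (fun ω => ex ((v + e) * s k * q) * gh P X β 0 n x ω) ω := by
    intro ω
    by_cases hω : ω ∈ E
    · rw [indicator_of_mem hω, mul_comm]
      refine mul_le_mul_left ?_ _
      refine tsub_le_self.trans ?_
      rw [← ex_rpow ((v + e) * s k) q]
      exact ENNReal.rpow_le_rpow (min_le_right _ _) hq0.le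
    · rw [indicator_of_notMem hω]
      have h1 : Z P X β vol 0 n A ω ≤ ex ((v - e) * s k - 1) := by
        rw [hE, mem_ofPred_eq, not_le] at hω
        exact hω.le
      have h2 : min (Z P X β vol 0 n B ω) (ex ((v + e) * s k)) ^ q ≤
          ex ((v - e) * s k - 1) ^ q :=
        ENNReal.rpow_le_rpow ((min_le_left _ _).trans ((lintegral_mono_set hBA).trans h1)) hq0.le
      rw [tsub_eq_zero_of_le h2, mul_zero]
  have hfin : ex (-C') ≤ ex ((v + e) * s k * q) * ∫⁻ ω in E, gh P X β 0 n x ω ∂P := by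
    refine hwin.trans ((lintegral_mono hpt).trans (le_of_eq ?_))
    rw [lintegral_indicator hEm, lintegral_const_mul _ hg]
  have h3 : ex (-C' - (v + e) * q * s k) = ex (-((v + e) * s k * q)) * ex (-C') := by
    rw [← ex_add]
    congr 1
    ring
  rw [h3]
  refine (mul_le_mul_right hfin _).trans (le_of_eq ?_)
  rw [← mul_assoc, ← ex_add, neg_add_cancel, ex_zero, one_mul]

end Pool.Agent.H629.GC.P.T1
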